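import Pool.Agent.Helper23.AC.Defs

/-! AC-3: pairings, restrictions and the norming set (MP_981e7e_an) -/

set_option autoImplicit false

namespace Pool.Agent.Helper23.AC

open Finset

theorem pr_eq_sum {f : Fn} {z : ℕ → ℝ} {s : Finset ℕ} (h : f.support ⊆ s) :
    pr f z = ∑ n ∈ s, f n * z n := by
  unfold pr
  apply Finset.sum_subset h
  intro n _ hn
  rw [Finsupp.notMem_support_iff.mp hn, zero_mul]

theorem pr_zero (z : ℕ → ℝ) : pr 0 z = 0 := by
  simp [pr]

theorem pr_add (f g : Fn) (z : ℕ → ℝ) : pr (f + g) z = pr f z + pr g z := by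
  have h1 : (f + g).support ⊆ f.support ∪ g.support := Finsupp.support_add
  rw [pr_eq_sum h1, pr_eq_sum (s := f.support ∪ g.support) Finset.subset_union_left,
    pr_eq_sum (s := f.support ∪ g.support) Finset.subset_union_right, ← Finset.sum_add_distrib]
  refine Finset.sum_congr rfl fun n _ => ?_
  simp [add_mul]

theorem pr_smul (a : ℝ) (f : Fn) (z : ℕ → ℝ) : pr (a • f) z = a * pr f z := by
  rw [pr_eq_sum (Finsupp.support_smul (b := a) (g := f)), pr, Finset.mul_sum]
  refine Finset.sum_congr rfl fun n _ => ?_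
  simp [mul_assoc]

theorem pr_sum {ι : Type} (s : Finset ι) (f : ι → Fn) (z : ℕ → ℝ) :
    pr (∑ i ∈ s, f i) z = ∑ i ∈ s, pr (f i) z := by
  classical
  induction s using Finset.induction_on with
  | empty => simp [pr_zero]
  | insert a s ha ih => rw [Finset.sum_insert ha, Finset.sum_insert ha, pr_add, ih]

theorem pr_single (n : ℕ) (a : ℝ) (z : ℕ → ℝ) : pr (Finsupp.single n a) z = a * z n := by
  rw [pr_eq_sum (s := {n}) Finsupp.support_single_subset]
  simp

theorem pr_fsum {ι : Type} (s : Finset ι) (f : Fn) (a : ι → ℝ) (z : ι → ℕ → ℝ) :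
    pr f (fun n => ∑ i ∈ s, a i * z i n) = ∑ i ∈ s, a i * pr f (z i) := by
  unfold pr
  simp_rw [Finset.mul_sum]
  rw [Finset.sum_comm]
  refine Finset.sum_congr rfl fun i _ => Finset.sum_congr rfl fun n _ => ?_
  ring

theorem res_apply (E : Set ℕ) (f : Fn) (n : ℕ) [Decidable (n ∈ E)] :
    res E f n = if n ∈ E then f n else 0 := by
  unfold res
  by_cases h : n ∈ E
  · rw [if_pos h]
    exact @Finsupp.filter_apply_pos _ _ _ _ (Classical.decPred _) f n h
  · rw [if_neg h]
    exact @Finsupp.filter_apply_neg _ _ _ _ (Classical.decPred _) f n h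

theorem res_add (E : Set ℕ) (f g : Fn) : res E (f + g) = res E f + res E g := by
  classical
  ext n
  rw [Finsupp.add_apply, res_apply, res_apply, res_apply]
  split <;> simp

theorem res_smul (E : Set ℕ) (a : ℝ) (f : Fn) : res E (a • f) = a • res E f := by
  classical
  ext n
  rw [Finsupp.smul_apply, res_apply, res_apply]
  split <;> simp

theorem res_zero (E : Set ℕ) : res E 0 = 0 := by
  classical
  ext n
  rw [res_apply]
  simp

theorem res_sum {ι : Type} (E : Set ℕ) (s : Finset ι) (f : ι → Fn) :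
    res E (∑ i ∈ s, f i) = ∑ i ∈ s, res E (f i) := by
  classical
  induction s using Finset.induction_on with
  | empty => simp [res_zero]
  | insert a s ha ih => rw [Finset.sum_insert ha, Finset.sum_insert ha, res_add, ih]

theorem res_support (E : Set ℕ) (f : Fn) {n : ℕ} (h : n ∈ (res E f).support) :
    n ∈ f.support ∧ n ∈ E := by
  classical
  rw [Finsupp.mem_support_iff, res_apply] at h
  split at h
  · next h' => exact ⟨Finsupp.mem_support_iff.mpr h, h'⟩
  · exact absurd rfl h

theorem res_single (E : Set ℕ) (n : ℕ) (a : ℝ) [Decidable (n ∈ E)] :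
    res E (Finsupp.single n a) = if n ∈ E then Finsupp.single n a else 0 := by
  classical
  ext m
  rw [res_apply]
  by_cases h : m = n
  · subst h
    by_cases h1 : m ∈ E
    · rw [if_pos h1, if_pos h1]
    · rw [if_neg h1, if_neg h1]
      simp
  · have h2 : (Finsupp.single n a : Fn) m = 0 := by
      rw [Finsupp.single_apply, if_neg (fun h' => h h'.symm)]
    rw [h2]
    by_cases h1 : n ∈ E
    · rw [if_pos h1, h2]
      split <;> rfl
    · rw [if_neg h1]
      split <;> simp

/-- if `z` and `z'` agree on `E` and `z'` vanishes off `E` -/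
theorem pr_res {f : Fn} {z z' : ℕ → ℝ} (E : Set ℕ) (h1 : ∀ n ∈ E, z' n = z n)
    (h2 : ∀ n ∉ E, z' n = 0) : pr (res E f) z = pr f z' := by
  classical
  have hs : (res E f).support ⊆ f.support := fun n hn => (res_support E f hn).1
  rw [pr_eq_sum hs]
  unfold pr
  refine Finset.sum_congr rfl fun n _ => ?_
  rw [res_apply]
  by_cases h : n ∈ E
  · rw [if_pos h, h1 n h]
  · rw [if_neg h, h2 n h, zero_mul, mul_zero]

/-! ### prA and UB: the facts needed here (independent of AC-1) -/

private theorem prA_mono {c c' β : Fn} (h : ∀ n, |c n| ≤ |c' n|) : prA c β ≤ prA c' β := by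
  unfold prA
  have hs : c.support ⊆ c'.support := by
    intro n hn
    rw [Finsupp.mem_support_iff] at hn ⊢
    intro h0
    have := h n
    rw [h0, abs_zero] at this
    exact hn (abs_nonpos_iff.mp this)
  calc ∑ n ∈ c.support, |c n| * |β n| ≤ ∑ n ∈ c.support, |c' n| * |β n| :=
        Finset.sum_le_sum fun n _ => mul_le_mul_of_nonneg_right (h n) (abs_nonneg _)
    _ ≤ ∑ n ∈ c'.support, |c' n| * |β n| :=
        Finset.sum_le_sum_of_subset_of_nonneg hs fun n _ _ => by positivity

private theorem tm_bounds' {t : Fn} (ht : TM t) : ∀ n, 0 ≤ t n ∧ t n ≤ 1 := by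
  induction ht with
  | leaf i =>
    intro n
    rw [Finsupp.single_apply]
    split <;> norm_num
  | node d t ht hd hdisj ih =>
    intro n
    have hval : ((1 / 2 : ℝ) • ∑ j, t j) n = (1 / 2 : ℝ) * ∑ j, t j n := by
      rw [Finsupp.smul_apply, Finsupp.finsetSum_apply, smul_eq_mul]
    rw [hval]
    have h0 : 0 ≤ ∑ j, t j n := Finset.sum_nonneg fun j _ => (ih j n).1
    have h1 : ∑ j, t j n ≤ 1 := by
      by_cases h : ∃ j, t j n ≠ 0
      · obtain ⟨j, hj⟩ := h
        rw [Finset.sum_eq_single j]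
        · exact (ih j n).2
        · intro i _ hij
          by_contra hne
          have h1 : n ∈ (t i).support := Finsupp.mem_support_iff.mpr hne
          have h2 : n ∈ (t j).support := Finsupp.mem_support_iff.mpr hj
          exact (Finset.disjoint_left.mp (hdisj i j hij) h1) h2
        · intro h
          exact absurd (Finset.mem_univ j) h
      · push Not at h
        rw [Finset.sum_eq_zero fun j _ => h j]
        norm_num
    constructor
    · positivity
    · linarith

private theorem prA_le_sum {t β : Fn} (ht : TM t) : prA t β ≤ ∑ n ∈ β.support, |β n| := by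
  unfold prA
  have h1 : ∑ n ∈ t.support, |t n| * |β n| = ∑ n ∈ t.support ∩ β.support, |t n| * |β n| := by
    symm
    apply Finset.sum_subset Finset.inter_subset_left
    intro n h1 h2
    have : n ∉ β.support := fun h => h2 (Finset.mem_inter.mpr ⟨h1, h⟩)
    rw [Finsupp.notMem_support_iff.mp this]
    simp
  rw [h1]
  calc ∑ n ∈ t.support ∩ β.support, |t n| * |β n|
      ≤ ∑ n ∈ t.support ∩ β.support, |β n| := by
        refine Finset.sum_le_sum fun n _ => ?_
        have h := tm_bounds' ht n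
        have : |t n| ≤ 1 := by rw [abs_of_nonneg h.1]; exact h.2
        nlinarith [abs_nonneg (β n)]
    _ ≤ ∑ n ∈ β.support, |β n| :=
        Finset.sum_le_sum_of_subset_of_nonneg Finset.inter_subset_right
          fun n _ _ => abs_nonneg _

private theorem tau_bdd (β : Fn) : BddAbove ((fun t => prA t β) '' {t | TM t}) := by
  refine ⟨∑ n ∈ β.support, |β n|, ?_⟩
  rintro _ ⟨t, ht, rfl⟩
  exact prA_le_sum ht

private theorem prA_le_tau' {t : Fn} (ht : TM t) (β : Fn) : prA t β ≤ tau β :=
  le_csSup (tau_bdd β) ⟨t, ht, rfl⟩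

private theorem abs_le_tau' (β : Fn) (n : ℕ) : |β n| ≤ tau β := by
  have h := prA_le_tau' (TM.leaf n) β
  have h2 : prA (Finsupp.single n 1) β = |β n| := by
    unfold prA
    rw [Finsupp.support_single_ne_zero n one_ne_zero]
    simp
  rwa [h2] at h

private theorem tau_nonneg' (β : Fn) : 0 ≤ tau β := (abs_nonneg _).trans (abs_le_tau' β 0)

private theorem tau_single_one (n : ℕ) : tau (Finsupp.single n 1) ≤ 1 := by
  apply csSup_le
  · exact ⟨_, _, TM.leaf 0, rfl⟩
  rintro _ ⟨t, ht, rfl⟩
  refine (prA_le_sum ht).trans ?_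
  rw [Finsupp.support_single_ne_zero n one_ne_zero]
  simp

private theorem ub_coord' {lam : ℝ} {c : Fn} (h : UB lam c) (n : ℕ) : |c n| ≤ lam := by
  have h1 := h (Finsupp.single n 1)
  have h2 : prA c (Finsupp.single n 1) = |c n| := by
    unfold prA
    by_cases hn : n ∈ c.support
    · rw [Finset.sum_eq_single n]
      · simp
      · intro m _ hm
        rw [Finsupp.single_apply, if_neg (fun h' => hm h'.symm)]
        simp
      · intro h'
        exact absurd hn h'
    · rw [Finsupp.notMem_support_iff.mp hn, abs_zero]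
      apply Finset.sum_eq_zero
      intro m hm
      have : n ≠ m := fun h' => hn (h' ▸ hm)
      rw [Finsupp.single_apply, if_neg this]
      simp
  rw [h2] at h1
  have h3 : 0 ≤ lam := by
    by_contra hneg
    push Not at hneg
    have h4 := tau_single_one n
    have h5 := abs_le_tau' (Finsupp.single n 1) n
    rw [Finsupp.single_eq_same, abs_one] at h5
    have : tau (Finsupp.single n 1) = 1 := le_antisymm h4 h5
    rw [this, mul_one] at h1
    linarith [abs_nonneg (c n)]
  calc |c n| ≤ lam * tau (Finsupp.single n 1) := h1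
    _ ≤ lam * 1 := mul_le_mul_of_nonneg_left (tau_single_one n) h3
    _ = lam := mul_one _

private theorem ub_mono' {lam : ℝ} {c c' : Fn} (h : ∀ n, |c n| ≤ |c' n|) (h' : UB lam c') :
    UB lam c := fun β => (prA_mono h).trans (h' β)

private theorem ub_weaken' {lam mu : ℝ} {c : Fn} (h : lam ≤ mu) (h' : UB lam c) : UB mu c :=
  fun β => (h' β).trans (mul_le_mul_of_nonneg_right h (tau_nonneg' β))

private theorem prA_single (n : ℕ) (a : ℝ) (β : Fn) :
    prA (Finsupp.single n a) β = |a| * |β n| := by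
  by_cases ha : a = 0
  · subst ha
    simp [prA]
  · unfold prA
    rw [Finsupp.support_single_ne_zero n ha]
    simp

private theorem ub_single' {a lam : ℝ} (n : ℕ) (ha : |a| ≤ lam) : UB lam (Finsupp.single n a) := by
  intro β
  rw [prA_single]
  exact mul_le_mul ha (abs_le_tau' β n) (abs_nonneg _) ((abs_nonneg a).trans ha)

theorem bb_mono {v v' : ℕ} (h : v ≤ v') : bb v ≤ bb v' := by
  unfold bb
  apply pow_le_pow_right₀ (by norm_num)
  exact Nat.mul_le_mul_left 12 (Nat.pow_le_pow_left h 2)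

theorem bb_pos (v : ℕ) : 0 < bb v := by
  unfold bb; positivity

theorem one_le_bb (v : ℕ) : 1 ≤ bb v := by
  unfold bb
  exact one_le_pow₀ (by norm_num)

theorem bb_mul_le (v v' : ℕ) : bb v * bb v' ≤ bb (v + v') := by
  unfold bb
  rw [← pow_add]
  apply pow_le_pow_right₀ (by norm_num)
  nlinarith [Nat.zero_le (v * v')]

/-! ### the norming set -/

theorem good_iff (t : ℕ) (f : Fn) : Good t f ↔ ∃ (p : Fn) (F : ℕ → Fn), UB 1 p ∧
    (∀ v ∈ p.support, t ≤ v ∧ 1 ≤ v ∧ Typ v (F v)) ∧ f = ∑ v ∈ p.support, p v • F v := by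
  constructor
  · rintro ⟨_, p, c, g, hp, ht, hc1, hc2, hg, hs1, hs2⟩
    refine ⟨p, fun v => patF (c v) (g v), hp, fun v hv => ⟨(ht v hv).1, (ht v hv).2, ?_⟩, rfl⟩
    refine ⟨c v, g v, ⟨hc1 v hv, hc2 v hv, fun π hπ => ?_, hs1 v hv, hs2 v hv⟩, rfl⟩
    by_cases h : ∃ n, g v π = Finsupp.single n 1
    · exact Or.inl h
    · exact Or.inr (hg v hv π hπ h)
  · rintro ⟨p, F, hp, hF, rfl⟩
    classical
    have hch : ∀ v, ∃ (c : Fn) (g : ℕ → Fn), v ∈ p.support → Pat v c g ∧ F v = patF c g := by
      intro v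
      by_cases hv : v ∈ p.support
      · obtain ⟨c, g, h1, h2⟩ := (hF v hv).2.2
        exact ⟨c, g, fun _ => ⟨h1, h2⟩⟩
      · exact ⟨0, fun _ => 0, fun h => absurd h hv⟩
    choose c g hcg using hch
    have heq : ∑ v ∈ p.support, p v • F v =
        ∑ v ∈ p.support, p v • ∑ π ∈ (c v).support, c v π • g v π := by
      refine Finset.sum_congr rfl fun v hv => ?_
      rw [(hcg v hv).2]
      rfl
    rw [heq]
    refine Good.mk t p c g hp (fun v hv => ⟨(hF v hv).1, (hF v hv).2.1⟩)
      (fun v hv => (hcg v hv).1.c1) (fun v hv => (hcg v hv).1.c2) ?_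
      (fun v hv => (hcg v hv).1.s1) (fun v hv => (hcg v hv).1.s2)
    intro v hv π hπ h
    exact ((hcg v hv).1.hg π hπ).resolve_left h

theorem good_mono {s t : ℕ} (h : s ≤ t) {f : Fn} (hf : Good t f) : Good s f := by
  rw [good_iff] at hf ⊢
  obtain ⟨p, F, hp, hF, rfl⟩ := hf
  exact ⟨p, F, hp, fun v hv => ⟨h.trans (hF v hv).1, (hF v hv).2⟩, rfl⟩

private theorem ub_zero' {lam : ℝ} (h : 0 ≤ lam) : UB lam 0 := by
  intro β
  have : prA 0 β = 0 := by simp [prA]
  rw [this]
  exact mul_nonneg h (tau_nonneg' β)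

theorem good_zero (t : ℕ) : Good t 0 := by
  rw [good_iff]
  exact ⟨0, fun _ => 0, ub_zero' zero_le_one, by simp, by simp⟩

theorem good_smul {t : ℕ} {f : Fn} (hf : Good t f) {a : ℝ} (ha : |a| ≤ 1) : Good t (a • f) := by
  rw [good_iff] at hf ⊢
  obtain ⟨p, F, hp, hF, rfl⟩ := hf
  have hs : (a • p).support ⊆ p.support := Finsupp.support_smul
  refine ⟨a • p, F, ub_mono' (fun n => ?_) hp, fun v hv => hF v (hs hv), ?_⟩
  · rw [Finsupp.smul_apply, smul_eq_mul, abs_mul]
    nlinarith [abs_nonneg (p n)]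
  · rw [Finset.smul_sum, Finset.sum_subset hs]
    · refine Finset.sum_congr rfl fun v _ => ?_
      rw [Finsupp.smul_apply, smul_eq_mul, mul_smul]
    · intro v _ hv
      rw [Finsupp.notMem_support_iff.mp hv, zero_smul]

/-- changing the coefficients, possibly for another type `v'` -/
theorem pat_of_le {v v' : ℕ} {c c' : Fn} {g : ℕ → Fn} (h : Pat v c g)
    (hs : c'.support ⊆ c.support) (h1 : ∀ π, |c' π| ≤ (1 / 8 : ℝ) ^ v') (h2 : UB (bb v') c') :
    Pat v' c' g :=
  ⟨h1, h2, fun π hπ => h.hg π (hs hπ), fun π hπ => h.s1 π (hs hπ),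
    fun π hπ π' hπ' => h.s2 π (hs hπ) π' (hs hπ')⟩

theorem typ_smul {v : ℕ} {f : Fn} (hf : Typ v f) {a : ℝ} (ha : |a| ≤ 1) : Typ v (a • f) := by
  obtain ⟨c, g, hP, rfl⟩ := hf
  have hs : (a • c).support ⊆ c.support := Finsupp.support_smul
  have hle : ∀ n, |(a • c) n| ≤ |c n| := by
    intro n
    rw [Finsupp.smul_apply, smul_eq_mul, abs_mul]
    nlinarith [abs_nonneg (c n)]
  refine ⟨a • c, g, pat_of_le hP hs (fun π => (hle π).trans (hP.c1 π)) (ub_mono' hle hP.c2), ?_⟩
  unfold patF
  rw [Finset.smul_sum, Finset.sum_subset hs]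
  · refine Finset.sum_congr rfl fun v _ => ?_
    rw [Finsupp.smul_apply, smul_eq_mul, mul_smul]
  · intro v _ hv
    rw [Finsupp.notMem_support_iff.mp hv, zero_smul]

theorem good_res {t : ℕ} {f : Fn} (hf : Good t f) (E : Set ℕ) : Good t (res E f) := by
  classical
  induction hf with
  | mk t p c g hp ht hc1 hc2 hg hs1 hs2 ih =>
    have heq : res E (∑ v ∈ p.support, p v • ∑ π ∈ (c v).support, c v π • g v π) =
        ∑ v ∈ p.support, p v • ∑ π ∈ (c v).support, c v π • res E (g v π) := by
      rw [res_sum]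
      refine Finset.sum_congr rfl fun v _ => ?_
      rw [res_smul, res_sum]
      congr 1
      refine Finset.sum_congr rfl fun π _ => ?_
      rw [res_smul]
    rw [heq]
    refine Good.mk t p c (fun v π => res E (g v π)) hp ht hc1 hc2 ?_ ?_ ?_
    · intro v hv π hπ hno
      by_cases h : ∃ n, g v π = Finsupp.single n 1
      · obtain ⟨n, hn⟩ := h
        by_cases hE : n ∈ E
        · exact absurd ⟨n, by simp only [hn, res_single, if_pos hE]⟩ hno
        · have : res E (g v π) = 0 := by rw [hn, res_single, if_neg hE]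
          simp only [this]
          exact good_zero π
      · exact ih v hv π hπ h
    · intro v hv π hπ n hn
      exact hs1 v hv π hπ n (res_support E _ hn).1
    · intro v hv π hπ π' hπ' h n hn
      exact hs2 v hv π hπ π' hπ' h n (res_support E _ hn).1

/-- the restriction of a pattern -/
theorem pat_res {v : ℕ} {c : Fn} {g : ℕ → Fn} (h : Pat v c g) (E : Set ℕ) :
    Pat v c (fun π => res E (g π)) := by
  classical
  refine ⟨h.c1, h.c2, fun π hπ => ?_, fun π hπ n hn => h.s1 π hπ n (res_support E _ hn).1,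
    fun π hπ π' hπ' hlt n hn => h.s2 π hπ π' hπ' hlt n (res_support E _ hn).1⟩
  rcases h.hg π hπ with ⟨n, hn⟩ | hG
  · by_cases hE : n ∈ E
    · exact Or.inl ⟨n, by simp only [hn, res_single, if_pos hE]⟩
    · refine Or.inr ?_
      have : res E (g π) = 0 := by rw [hn, res_single, if_neg hE]
      simp only [this]
      exact good_zero π
  · exact Or.inr (good_res hG E)

theorem res_patF (c : Fn) (g : ℕ → Fn) (E : Set ℕ) :
    res E (patF c g) = patF c (fun π => res E (g π)) := by
  unfold patF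
  rw [res_sum]
  refine Finset.sum_congr rfl fun π _ => ?_
  rw [res_smul]

theorem typ_res {v : ℕ} {f : Fn} (hf : Typ v f) (E : Set ℕ) : Typ v (res E f) := by
  obtain ⟨c, g, hP, rfl⟩ := hf
  exact ⟨c, _, pat_res hP E, res_patF c g E⟩

theorem typ_good {v t : ℕ} {f : Fn} (hf : Typ v f) (hv : 1 ≤ v) (ht : t ≤ v) : Good t f := by
  rw [good_iff]
  refine ⟨Finsupp.single v 1, fun _ => f, ub_single' v (by simp), ?_, ?_⟩
  · intro w hw
    rw [Finsupp.support_single_ne_zero v one_ne_zero, Finset.mem_singleton] at hw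
    subst hw
    exact ⟨ht, hv, hf⟩
  · rw [Finsupp.support_single_ne_zero v one_ne_zero, Finset.sum_singleton]
    simp

theorem typ_single {v : ℕ} (n : ℕ) {a : ℝ} (ha : |a| ≤ (1 / 8 : ℝ) ^ v) :
    Typ v (Finsupp.single n a) := by
  have h1 : |a| ≤ 1 := ha.trans (pow_le_one₀ (by norm_num) (by norm_num))
  by_cases h0 : a = 0
  · subst h0
    refine ⟨0, fun _ => 0, ⟨fun π => by simp, ub_zero' (bb_pos v).le, by simp, by simp, by simp⟩, ?_⟩
    simp [patF]
  refine ⟨Finsupp.single n a, fun _ => Finsupp.single n 1, ⟨?_, ?_, ?_, ?_, ?_⟩, ?_⟩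
  · intro π
    rw [Finsupp.single_apply]
    split
    · exact ha
    · rw [abs_zero]; positivity
  · exact ub_single' n (h1.trans (one_le_bb v))
  · intro π _
    exact Or.inl ⟨n, rfl⟩
  · intro π hπ m hm
    rw [Finsupp.support_single_ne_zero n h0, Finset.mem_singleton] at hπ
    rw [Finsupp.support_single_ne_zero n one_ne_zero, Finset.mem_singleton] at hm
    rw [hπ, hm]
  · intro π hπ π' hπ' hlt
    rw [Finsupp.support_single_ne_zero n h0, Finset.mem_singleton] at hπ hπ'
    omega
  · unfold patF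
    rw [Finsupp.support_single_ne_zero n h0, Finset.sum_singleton]
    simp

/-- the coordinates of a pattern whose children have coordinates at most one -/
private theorem patF_sup {v : ℕ} {c : Fn} {g : ℕ → Fn} (h : ∀ π, |c π| ≤ (1 / 8 : ℝ) ^ v)
    (s1 : ∀ π ∈ c.support, ∀ n ∈ (g π).support, π ≤ n)
    (s2 : ∀ π ∈ c.support, ∀ π' ∈ c.support, π < π' → ∀ n ∈ (g π).support, n < π')
    (hg : ∀ π ∈ c.support, ∀ n, |g π n| ≤ 1) (n : ℕ) :
    |(∑ π ∈ c.support, c π • g π) n| ≤ (1 / 8 : ℝ) ^ v := by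
  have hval : (∑ π ∈ c.support, c π • g π) n = ∑ π ∈ c.support, c π * g π n := by
    rw [Finsupp.finsetSum_apply]
    rfl
  rw [hval]
  by_cases hex : ∃ π ∈ c.support, g π n ≠ 0
  · obtain ⟨π, hπ, hne⟩ := hex
    rw [Finset.sum_eq_single π]
    · rw [abs_mul]
      calc |c π| * |g π n| ≤ (1 / 8 : ℝ) ^ v * 1 :=
            mul_le_mul (h π) (hg π hπ n) (abs_nonneg _) (by positivity)
        _ = _ := mul_one _
    · intro π' hπ' hne'
      have hz : g π' n = 0 := by
        by_contra hne2
        have m1 : n ∈ (g π).support := Finsupp.mem_support_iff.mpr hne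
        have m2 : n ∈ (g π').support := Finsupp.mem_support_iff.mpr hne2
        rcases lt_or_gt_of_ne hne' with hlt | hlt
        · have := s2 π' hπ' π hπ hlt n m2
          have := s1 π hπ n m1
          omega
        · have := s2 π hπ π' hπ' hlt n m1
          have := s1 π' hπ' n m2
          omega
      rw [hz, mul_zero]
    · intro h'
      exact absurd hπ h'
  · push Not at hex
    rw [Finset.sum_eq_zero, abs_zero]
    · positivity
    · intro π hπ
      rw [hex π hπ, mul_zero]

private theorem geom_le (s : Finset ℕ) (hs : ∀ v ∈ s, 1 ≤ v) :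
    ∑ v ∈ s, (1 / 8 : ℝ) ^ v ≤ 1 / 7 := by
  have hsum : Summable fun v : ℕ => (1 / 8 : ℝ) ^ (v + 1) := by
    have := (summable_geometric_of_lt_one (by norm_num : (0:ℝ) ≤ 1 / 8) (by norm_num)).mul_left
      (1 / 8 : ℝ)
    refine this.congr fun v => ?_
    ring
  have h1 : ∑ v ∈ s, (1 / 8 : ℝ) ^ v = ∑ v ∈ s.image (fun v => v - 1), (1 / 8 : ℝ) ^ (v + 1) := by
    rw [Finset.sum_image]
    · refine Finset.sum_congr rfl fun v hv => ?_
      congr 1
      have := hs v hv
      omega
    · intro a ha b hb hab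
      have h1 := hs a ha
      have h2 := hs b hb
      simp only at hab
      omega
  rw [h1]
  refine (hsum.sum_le_tsum _ fun v _ => by positivity).trans ?_
  have h2 : ∑' v : ℕ, (1 / 8 : ℝ) ^ (v + 1) = 1 / 7 := by
    have h3 : ∀ v : ℕ, (1 / 8 : ℝ) ^ (v + 1) = (1 / 8 : ℝ) * (1 / 8 : ℝ) ^ v := fun v => by ring
    simp_rw [h3]
    rw [tsum_mul_left, tsum_geometric_of_lt_one (by norm_num) (by norm_num)]
    norm_num
  exact h2.le

/-- `∑_{v ≥ 1} 8^{-v} ≤ 1/7` on finite sets -/
theorem sum_geom_le (s : Finset ℕ) (hs : ∀ v ∈ s, 1 ≤ v) :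
    ∑ v ∈ s, (1 / 8 : ℝ) ^ v ≤ 1 / 7 := geom_le s hs

theorem good_sup' {t : ℕ} {f : Fn} (hf : Good t f) : ∀ n : ℕ, |f n| ≤ 1 / 7 := by
  induction hf with
  | mk t p c g hp ht hc1 hc2 hg hs1 hs2 ih =>
    intro n
    have hval : (∑ v ∈ p.support, p v • ∑ π ∈ (c v).support, c v π • g v π) n =
        ∑ v ∈ p.support, p v * (∑ π ∈ (c v).support, c v π • g v π) n := by
      rw [Finsupp.finsetSum_apply]
      rfl
    rw [hval]
    refine (Finset.abs_sum_le_sum_abs _ _).trans ?_
    refine le_trans (Finset.sum_le_sum fun v hv => ?_) (geom_le p.support fun v hv => (ht v hv).2)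
    rw [abs_mul]
    have h1 : |p v| ≤ 1 := ub_coord' hp v
    have h2 : |(∑ π ∈ (c v).support, c v π • g v π) n| ≤ (1 / 8 : ℝ) ^ v := by
      apply patF_sup (hc1 v hv) (hs1 v hv) (hs2 v hv)
      intro π hπ m
      by_cases h : ∃ n, g v π = Finsupp.single n 1
      · obtain ⟨k, hk⟩ := h
        rw [hk, Finsupp.single_apply]
        split <;> simp
      · exact (ih v hv π hπ h m).trans (by norm_num)
    calc |p v| * |(∑ π ∈ (c v).support, c v π • g v π) n| ≤ 1 * (1 / 8 : ℝ) ^ v :=
          mul_le_mul h1 h2 (abs_nonneg _) zero_le_one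
      _ = _ := one_mul _

theorem good_sup {t : ℕ} {f : Fn} (hf : Good t f) (n : ℕ) : |f n| ≤ 1 :=
  (good_sup' hf n).trans (by norm_num)

theorem typ_sup {v : ℕ} {f : Fn} (hf : Typ v f) (n : ℕ) : |f n| ≤ (1 / 8 : ℝ) ^ v := by
  obtain ⟨c, g, hP, rfl⟩ := hf
  apply patF_sup hP.c1 hP.s1 hP.s2
  intro π hπ m
  rcases hP.hg π hπ with ⟨k, hk⟩ | hG
  · rw [hk, Finsupp.single_apply]
    split <;> simp
  · exact good_sup hG m

end Pool.Agent.Helper23.AC
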