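import Mathlib

/-! Definitions for MP_981e7e_an: an asymptotic-subsequential-c_0 space none of whose
infinite-dimensional subspaces is asymptotic-c_0. -/

set_option autoImplicit false

namespace Pool.Agent.Helper23.AC

open Finset

/-- finitely supported functions -/
abbrev Fn := ℕ →₀ ℝ

/-- unsigned pairing `∑ |c n| |β n|` -/
noncomputable def prA (c β : Fn) : ℝ := ∑ n ∈ c.support, |c n| * |β n|

/-- the norming set of the modified Tsirelson space -/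
inductive TM : Fn → Prop
  | leaf (i : ℕ) : TM (Finsupp.single i 1)
  | node (d : ℕ) (t : Fin d → Fn) (ht : ∀ j, TM (t j))
      (hd : ∀ j, ∀ n ∈ (t j).support, d ≤ n)
      (hdisj : ∀ i j, i ≠ j → Disjoint (t i).support (t j).support) :
      TM ((1 / 2 : ℝ) • ∑ j, t j)

/-- the norm of the modified Tsirelson space -/
noncomputable def tau (β : Fn) : ℝ := sSup ((fun t => prA t β) '' {t | TM t})

/-- `c` has norm at most `lam` in the dual `U` of the modified Tsirelson space -/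
def UB (lam : ℝ) (c : Fn) : Prop := ∀ β : Fn, prA c β ≤ lam * tau β

noncomputable def bb (v : ℕ) : ℝ := 2 ^ (12 * v ^ 2)

/-- `Good t f`: `f` is a functional of the norming set all of whose types are `≥ t`. -/
inductive Good : ℕ → Fn → Prop
  | mk (t : ℕ) (p : Fn) (c : ℕ → Fn) (g : ℕ → ℕ → Fn)
      (hp : UB 1 p) (ht : ∀ v ∈ p.support, t ≤ v ∧ 1 ≤ v)
      (hc1 : ∀ v ∈ p.support, ∀ π, |c v π| ≤ (1 / 8 : ℝ) ^ v)
      (hc2 : ∀ v ∈ p.support, UB (bb v) (c v))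
      (hg : ∀ v ∈ p.support, ∀ π ∈ (c v).support,
        (¬ ∃ n, g v π = Finsupp.single n 1) → Good π (g v π))
      (hs1 : ∀ v ∈ p.support, ∀ π ∈ (c v).support, ∀ n ∈ (g v π).support, π ≤ n)
      (hs2 : ∀ v ∈ p.support, ∀ π ∈ (c v).support, ∀ π' ∈ (c v).support, π < π' →
        ∀ n ∈ (g v π).support, n < π') :
      Good t (∑ v ∈ p.support, p v • ∑ π ∈ (c v).support, c v π • g v π)

/-- the conditions on the coefficients `c` (at the positions) and the children `g` of a functional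
of type `v` -/
structure Pat (v : ℕ) (c : Fn) (g : ℕ → Fn) : Prop where
  c1 : ∀ π, |c π| ≤ (1 / 8 : ℝ) ^ v
  c2 : UB (bb v) c
  hg : ∀ π ∈ c.support, (∃ n, g π = Finsupp.single n 1) ∨ Good π (g π)
  s1 : ∀ π ∈ c.support, ∀ n ∈ (g π).support, π ≤ n
  s2 : ∀ π ∈ c.support, ∀ π' ∈ c.support, π < π' → ∀ n ∈ (g π).support, n < π'

/-- the functional with coefficients `c` and children `g` -/
noncomputable def patF (c : Fn) (g : ℕ → Fn) : Fn := ∑ π ∈ c.support, c π • g π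

/-- functionals of type `v` -/
def Typ (v : ℕ) (f : Fn) : Prop := ∃ c g, Pat v c g ∧ f = patF c g

/-- functionals of type `v` with all positions and children in `[l, r]` -/
def TypIn (v l r : ℕ) (f : Fn) : Prop :=
  ∃ c g, Pat v c g ∧ (∀ π ∈ c.support, l ≤ π ∧ π ≤ r) ∧
    (∀ π ∈ c.support, ∀ n ∈ (g π).support, n ≤ r) ∧ f = patF c g

/-- the norm: gauge of the convex hull of the norming set -/
noncomputable def nx (x : Fn) : ℝ := gauge (convexHull ℝ {f | Good 0 f}) x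

/-- signed pairing -/
noncomputable def pr (f : Fn) (z : ℕ → ℝ) : ℝ := ∑ n ∈ f.support, f n * z n

/-- restriction of `f` to the set `E` -/
noncomputable def res (E : Set ℕ) (f : Fn) : Fn :=
  haveI := Classical.decPred (· ∈ E)
  f.filter (· ∈ E)

/-- block sequences -/
structure Blk (x : ℕ → Fn) (l r : ℕ → ℕ) : Prop where
  lr : ∀ s, l s ≤ r s
  sep : ∀ s, r s < l (s + 1)
  supp : ∀ s, ∀ n ∈ (x s).support, l s ≤ n ∧ n ≤ r s

/-- an `L`-good pair -/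
structure IsPair (L l r : ℕ) (y : Fn) (w : ℕ → ℝ) : Prop where
  ysupp : ∀ n ∈ y.support, l ≤ n ∧ n ≤ r
  wsupp : ∀ n, w n ≠ 0 → l ≤ n ∧ n ≤ r
  pair : pr y w = 1
  ynorm : nx y ≤ 2
  wnorm : ∀ f, Good 0 f → |pr f w| ≤ 1
  low : ∀ v, 1 ≤ v → v ≤ L → ∀ f, Typ v f → |pr f w| ≤ 10 * (1 / 8 : ℝ) ^ v

/-- `β` is the dual vector of a group of type `v`, all whose pairs have level `≥ Lst` -/
def IsGrp (v Lst lo hi : ℕ) (β : ℕ → ℝ) : Prop :=
  ∃ (F : Finset ℕ) (b : ℕ → ℝ) (y : ℕ → Fn) (w : ℕ → ℕ → ℝ) (l r L : ℕ → ℕ),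
    (∀ s ∈ F, 0 < b s) ∧ ∑ s ∈ F, b s = 1 ∧
    (∀ s ∈ F, IsPair (L s) (l s) (r s) (y s) (w s)) ∧
    (∀ s ∈ F, Lst ≤ L s ∧ L s < l s ∧ l s ≤ r s ∧ lo ≤ L s ∧ r s ≤ hi) ∧
    (∀ s ∈ F, ∀ s' ∈ F, s < s' → r s < L s') ∧
    (∀ ω : ℕ → Fn, (∀ s ∈ F, (∀ n ∈ (ω s).support, L s < n ∧ n ≤ r s) ∧ tau (ω s) ≤ 1) →
      tau (∑ s ∈ F, b s • ω s) ≤ 1 / (2 ^ (12 * v + 5) * bb (v - 1))) ∧
    ∀ n, β n = 8 ^ v * ∑ s ∈ F, b s * w s n

/-! ### The notions of the problem -/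

/-- closed subspaces of finite codimension -/
def Cof (X : Type*) [NormedAddCommGroup X] [NormedSpace ℝ X] : Set (Submodule ℝ X) :=
  {Y | IsClosed (Y : Set X) ∧ FiniteDimensional ℝ (X ⧸ Y)}

/-- norms on `ℝ^k` making the unit vector basis normalized and monotone -/
structure IsE (k : ℕ) (N : (Fin k → ℝ) → ℝ) : Prop where
  add : ∀ s t, N (s + t) ≤ N s + N t
  smul : ∀ (a : ℝ) (t), N (a • t) = |a| * N t
  pos : ∀ t, N t = 0 → t = 0
  normalized : ∀ j, N (Pi.single j 1) = 1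
  monotone : ∀ (t : Fin k → ℝ) (m : ℕ), N (fun j => if (j : ℕ) < m then t j else 0) ≤ N t

/-- `C`-equivalence, in terms of the norms `M` and `N` of the linear combinations -/
def EquivN {k : ℕ} (C : ℝ) (N M : (Fin k → ℝ) → ℝ) : Prop :=
  ∃ a b : ℝ, 0 < a ∧ 0 < b ∧ a * b ≤ C ∧ ∀ t, a⁻¹ * M t ≤ N t ∧ N t ≤ b * M t

/-- the norm of the linear combinations of a finite sequence -/
noncomputable def seqN {X : Type*} [NormedAddCommGroup X] [NormedSpace ℝ X] {k : ℕ}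
    (x : Fin k → X) (t : Fin k → ℝ) : ℝ := ‖∑ j, t j • x j‖

/-- `∀ X₁ ∈ cof ∃ x₁ ∈ S_{X₁} ... ∀ X_k ∈ cof ∃ x_k ∈ S_{X_k} : Φ (x₁, ..., x_k)` -/
def Game (X : Type*) [NormedAddCommGroup X] [NormedSpace ℝ X] :
    (k : ℕ) → ((Fin k → X) → Prop) → Prop
  | 0, Φ => Φ Fin.elim0
  | k + 1, Φ => ∀ Y ∈ Cof X, ∃ x ∈ Y, ‖x‖ = 1 ∧ Game X k fun y => Φ (Fin.cons x y)

/-- the `k`-th asymptotic structure `{X}_k` -/
def AsymStruct (X : Type*) [NormedAddCommGroup X] [NormedSpace ℝ X] (k : ℕ) :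
    Set ((Fin k → ℝ) → ℝ) :=
  {N | IsE k N ∧ ∀ ε : ℝ, 0 < ε → Game X k fun x => EquivN (1 + ε) (seqN x) N}

/-- asymptotic-`c_0` (the norm of `Fin k → ℝ` is the maximum norm) -/
def AsymC0 (X : Type*) [NormedAddCommGroup X] [NormedSpace ℝ X] : Prop :=
  ∃ c : ℝ, 1 ≤ c ∧ ∀ k, ∀ N ∈ AsymStruct X k, EquivN c N fun t => ‖t‖

/-- asymptotic-subsequential-`c_0` -/
def AsymSubseqC0 (X : Type*) [NormedAddCommGroup X] [NormedSpace ℝ X] : Prop :=
  ¬ FiniteDimensional ℝ X ∧ ∃ C : ℝ, 1 ≤ C ∧ ∀ n : ℕ, ∃ K : ℕ, ∀ N ∈ AsymStruct X K,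
    ∃ i : Fin n ↪o Fin K,
      EquivN C (fun t : Fin n → ℝ => N (∑ k, t k • Pi.single (i k) 1)) fun t => ‖t‖

/-- what the rest of the proof uses about the Banach space -/
structure Model (X : Type) [NormedAddCommGroup X] [NormedSpace ℝ X] where
  ι : Fn →ₗ[ℝ] X
  norm_ι : ∀ x, ‖ι x‖ = nx x
  dense : DenseRange ι
  P : ℕ → X →L[ℝ] X
  hP : ∀ m x, P m (ι x) = ι (res {n | n < m} x)
  normP : ∀ m x, ‖P m x‖ ≤ ‖x‖

end Pool.Agent.Helper23.AC
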