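import Pool.Agent.Helper23.AC.Basics
import Pool.Agent.Helper8.AC.Norm
import Pool.Agent.Helper9.AC.Games
import Pool.Agent.Helper51.AC.Subset
import Pool.Agent.Helper67.AC.Approx

/-! AC-17: the space is asymptotic-subsequential-c_0 (MP_981e7e_an) -/

set_option autoImplicit false

namespace Pool.Agent.Helper23.AC

open Finset

/-- every coordinate is at most twice the norm -/
theorem IsE.coord_le {k : ℕ} {N : (Fin k → ℝ) → ℝ} (h : IsE k N) (t : Fin k → ℝ) (j : Fin k) :
    |t j| ≤ 2 * N t := by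
  classical
  have h1 : N (t j • Pi.single j 1) = |t j| := by
    rw [h.smul, h.normalized, mul_one]
  have h2 : (t j • Pi.single j 1 : Fin k → ℝ) =
      (fun i : Fin k => if (i : ℕ) < (j : ℕ) + 1 then t i else 0) +
        (-1 : ℝ) • (fun i : Fin k => if (i : ℕ) < (j : ℕ) then t i else 0) := by
    funext i
    simp only [Pi.smul_apply, Pi.add_apply, smul_eq_mul]
    by_cases hij : i = j
    · subst hij
      simp
    · rw [Pi.single_eq_of_ne hij]
      have : (i : ℕ) ≠ (j : ℕ) := fun h' => hij (Fin.ext h')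
      by_cases hlt : (i : ℕ) < (j : ℕ)
      · rw [if_pos hlt, if_pos (by omega)]
        ring
      · rw [if_neg hlt, if_neg (by omega)]
        ring
  calc |t j| = N (t j • Pi.single j 1) := h1.symm
    _ ≤ N (fun i : Fin k => if (i : ℕ) < (j : ℕ) + 1 then t i else 0) +
        N ((-1 : ℝ) • (fun i : Fin k => if (i : ℕ) < (j : ℕ) then t i else 0)) := by
        rw [h2]; exact h.add _ _
    _ ≤ N t + N t := by
        apply add_le_add (h.monotone t _)
        rw [h.smul]
        simpa using h.monotone t (j : ℕ)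
    _ = 2 * N t := by ring

section

variable {X : Type} [NormedAddCommGroup X] [NormedSpace ℝ X]

theorem Model.exists_tail (M : Model X) {η : ℝ} (hη : 0 < η) (m₀ : ℕ) (z : X) :
    ∃ m, m₀ < m ∧ ‖z - M.P m z‖ ≤ η := by
  have h1 := (Metric.tendsto_atTop.mp (M.tendsto_P z)) η hη
  obtain ⟨m₁, hm₁⟩ := h1
  refine ⟨max (m₀ + 1) m₁, by have := le_max_left (m₀ + 1) m₁; omega, ?_⟩
  have := hm₁ (max (m₀ + 1) m₁) (le_max_right _ _)
  rw [dist_comm, dist_eq_norm] at this
  exact this.le

/-- the cut-off points -/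
noncomputable def cut (M : Model X) (K : ℕ) {η : ℝ} (hη : 0 < η) (z : ℕ → X) : ℕ → ℕ
  | 0 => K
  | j + 1 => Classical.choose (M.exists_tail hη (cut M K hη z j) (z j))

theorem cut_lt (M : Model X) (K : ℕ) {η : ℝ} (hη : 0 < η) (z : ℕ → X) (j : ℕ) :
    cut M K hη z j < cut M K hη z (j + 1) :=
  (Classical.choose_spec (M.exists_tail hη (cut M K hη z j) (z j))).1

theorem cut_near (M : Model X) (K : ℕ) {η : ℝ} (hη : 0 < η) (z : ℕ → X) (j : ℕ) :
    ‖z j - M.P (cut M K hη z (j + 1)) (z j)‖ ≤ η :=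
  (Classical.choose_spec (M.exists_tail hη (cut M K hη z j) (z j))).2

theorem cut_congr (M : Model X) (K : ℕ) {η : ℝ} (hη : 0 < η) {z z' : ℕ → X} (j : ℕ)
    (h : ∀ i < j, z i = z' i) : cut M K hη z j = cut M K hη z' j := by
  induction j with
  | zero => rfl
  | succ j ih =>
    have h1 := ih fun i hi => h i (by omega)
    have h2 := h j (Nat.lt_succ_self j)
    change Classical.choose (M.exists_tail hη (cut M K hη z j) (z j)) =
      Classical.choose (M.exists_tail hη (cut M K hη z' j) (z' j))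
    congr 1
    rw [h1, h2]

theorem cut_strictMono (M : Model X) (K : ℕ) {η : ℝ} (hη : 0 < η) (z : ℕ → X) :
    StrictMono (cut M K hη z) := strictMono_nat_of_lt_succ (cut_lt M K hη z)

/-- extension by zero -/
noncomputable def extz {j : ℕ} (x : Fin j → X) (i : ℕ) : X := if h : i < j then x ⟨i, h⟩ else 0

theorem Model.P_P (M : Model X) {m m' : ℕ} (h : m ≤ m') (x : X) :
    M.P m (M.P m' x) = M.P m x := by
  classical
  have h1 : (fun x => M.P m (M.P m' x)) = fun x => M.P m x := by
    apply M.dense.equalizer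
    · exact (M.P m).continuous.comp (M.P m').continuous
    · exact (M.P m).continuous
    · funext u
      simp only [Function.comp]
      rw [M.hP, M.hP, M.hP]
      congr 1
      ext n
      rw [res_apply, res_apply, res_apply]
      by_cases hn : n ∈ {n : ℕ | n < m}
      · have hn' : n ∈ {n : ℕ | n < m'} := lt_of_lt_of_le hn h
        rw [if_pos hn, if_pos hn', if_pos hn]
      · rw [if_neg hn, if_neg hn]
  exact congrFun h1 x

theorem Model.ι_inj (M : Model X) {u : Fn} (h : M.ι u = 0) : u = 0 := by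
  by_contra hu
  have h1 := nx_pos hu
  rw [← M.norm_ι, h, norm_zero] at h1
  exact lt_irrefl _ h1

theorem Model.asymSubseqC0 (M : Model X) : AsymSubseqC0 X := by
  classical
  refine ⟨M.infinite, 204, by norm_num, fun n => ?_⟩
  obtain ⟨K, hK⟩ := exists_good_subset n
  refine ⟨K, fun N hN => ?_⟩
  obtain ⟨hE, hG⟩ := hN
  set η : ℝ := 1 / (n + 1) with hη
  have hη0 : 0 < η := by positivity
  obtain ⟨x, hxσ, hxE⟩ := game_unroll (hG 1 one_pos)
    (fun j x => LinearMap.ker (M.P (cut M K hη0 (extz x) j) : X →ₗ[ℝ] X))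
    (fun j x => M.ker_mem_cof _)
  set z : ℕ → X := extz x with hz
  have hzx : ∀ j : Fin K, z j = x j := by
    intro j
    rw [hz, extz, dif_pos j.2]
  set μ : ℕ → ℕ := cut M K hη0 z with hμ
  have hker : ∀ j : Fin K, M.P (μ j) (x j) = 0 := by
    intro j
    have h1 := (hxσ j).1
    rw [LinearMap.mem_ker] at h1
    have h2 : cut M K hη0 (extz fun i : Fin j => x ⟨i, i.2.trans j.2⟩) j = μ j := by
      apply cut_congr
      intro i hi
      rw [hz, extz, extz, dif_pos hi, dif_pos (hi.trans j.2)]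
    rw [h2] at h1
    exact h1
  have hmono : StrictMono μ := cut_strictMono M K hη0 z
  have hμK : ∀ j, K ≤ μ j := fun j => hmono.monotone (Nat.zero_le j)
  -- the blocks
  have hu : ∀ j : Fin K, ∃ u : Fn, (∀ k ∈ u.support, μ j ≤ k ∧ k ≤ μ (j + 1) - 1) ∧
      M.P (μ (j + 1)) (x j) = M.ι u := by
    intro j
    obtain ⟨u, hu1, hu2⟩ := M.exists_P (μ (j + 1)) (x j)
    refine ⟨u, fun k hk => ⟨?_, ?_⟩, hu2⟩
    · by_contra hlt
      have h1 : M.P (μ j) (M.P (μ (j + 1)) (x j)) = 0 := by
        rw [M.P_P (hmono.monotone (Nat.le_succ _)), hker]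
      rw [hu2, M.hP] at h1
      have h2 := M.ι_inj h1
      have h3 : res {n | n < μ j} u k = u k := by
        rw [res_apply, if_pos]
        exact not_le.mp hlt
      rw [h2] at h3
      exact (Finsupp.mem_support_iff.mp hk) (by simpa using h3.symm)
    · have := hu1 k hk
      omega
  choose u hu1 hu2 using hu
  have hnear : ∀ j : Fin K, ‖x j - M.ι (u j)‖ ≤ η := by
    intro j
    have := cut_near M K hη0 z j
    rw [hzx j] at this
    rw [← hu2 j]
    exact this
  obtain ⟨σ, hσ⟩ := hK u (fun j => μ j) (fun j => μ (j + 1) - 1) hu1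
    (fun i j hij => by
      have h1 : μ (i + 1) ≤ μ j := hmono.monotone (Nat.succ_le_of_lt hij)
      have h2 : μ i < μ (i + 1) := hmono (Nat.lt_succ_self _)
      show μ (i + 1) - 1 < μ j
      omega)
    (fun j => ⟨hμK j, by
      have h2 : μ j < μ (j + 1) := hmono (Nat.lt_succ_self _)
      show μ j ≤ μ (j + 1) - 1
      omega⟩)
    (fun j => by
      rw [← M.norm_ι, ← hu2 j]
      exact (M.normP _ _).trans (hxσ j).2.le)
  refine ⟨σ, ?_⟩
  -- equivalence constants
  obtain ⟨a, b, ha, hb, hab, hequiv⟩ := hxE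
  rcases Nat.eq_zero_or_pos n with hn0 | hn
  · subst hn0
    refine ⟨1, 1, one_pos, one_pos, by norm_num, fun t => ?_⟩
    have h1 : t = 0 := Subsingleton.elim _ _
    have h2 : N 0 = 0 := by
      have := hE.smul 0 0
      simpa using this
    subst h1
    simp [h2]
  have hK0 : 0 < K := lt_of_lt_of_le hn (by
    simpa using Fintype.card_le_of_injective σ σ.injective)
  have hb1 : 1 ≤ b := by
    have h1 := (hequiv (Pi.single ⟨0, hK0⟩ 1)).2
    have h2 : seqN x (Pi.single ⟨0, hK0⟩ 1) = 1 := by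
      unfold seqN
      rw [Finset.sum_eq_single ⟨0, hK0⟩]
      · rw [Pi.single_eq_same, one_smul]
        exact (hxσ _).2
      · intro j _ hj
        rw [Pi.single_eq_of_ne hj, zero_smul]
      · intro h; exact absurd (Finset.mem_univ _) h
    rw [h2, hE.normalized, mul_one] at h1
    exact h1
  have ha2 : a ≤ 2 := by
    have : a * 1 ≤ a * b := mul_le_mul_of_nonneg_left hb1 ha.le
    linarith
  -- the combinations
  have hsum : ∀ s : Fin n → ℝ, ∑ j, (∑ k, s k • (Pi.single (σ k) 1 : Fin K → ℝ)) j • x j =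
      ∑ k, s k • x (σ k) := by
    intro s
    have h1 : ∀ j, (∑ k, s k • (Pi.single (σ k) 1 : Fin K → ℝ)) j • x j =
        ∑ k, (s k * (Pi.single (σ k) 1 : Fin K → ℝ) j) • x j := by
      intro j
      rw [Finset.sum_apply, Finset.sum_smul]
      rfl
    simp_rw [h1]
    rw [Finset.sum_comm]
    refine Finset.sum_congr rfl fun k _ => ?_
    rw [Finset.sum_eq_single (σ k)]
    · rw [Pi.single_eq_same, mul_one]
    · intro j _ hj
      rw [Pi.single_eq_of_ne hj, mul_zero, zero_smul]
    · intro h; exact absurd (Finset.mem_univ _) h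
  have hupper1 : ∀ s : Fin n → ℝ, ‖s‖ ≤ 1 → ‖∑ k, s k • x (σ k)‖ ≤ 51 := by
    intro s hs
    have hsk : ∀ k, |s k| ≤ 1 := fun k => (norm_le_pi_norm s k).trans hs
    have h1 : ∑ k, s k • x (σ k) = M.ι (∑ k, s k • u (σ k)) +
        ∑ k, s k • (x (σ k) - M.ι (u (σ k))) := by
      rw [map_sum, ← Finset.sum_add_distrib]
      refine Finset.sum_congr rfl fun k _ => ?_
      rw [map_smul, smul_sub]
      abel
    rw [h1]
    refine (norm_add_le _ _).trans ?_
    have h2 : ‖M.ι (∑ k, s k • u (σ k))‖ ≤ 50 := by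
      rw [M.norm_ι]
      exact hσ s hsk
    have h3 : ‖∑ k, s k • (x (σ k) - M.ι (u (σ k)))‖ ≤ 1 := by
      calc ‖∑ k, s k • (x (σ k) - M.ι (u (σ k)))‖
          ≤ ∑ k : Fin n, ‖s k • (x (σ k) - M.ι (u (σ k)))‖ := norm_sum_le _ _
        _ ≤ ∑ _k : Fin n, η := by
            refine Finset.sum_le_sum fun k _ => ?_
            rw [norm_smul]
            calc ‖s k‖ * ‖x (σ k) - M.ι (u (σ k))‖ ≤ 1 * η :=
                  mul_le_mul (hsk k) (hnear _) (norm_nonneg _) zero_le_one
              _ = η := one_mul _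
        _ = n * η := by simp
        _ ≤ 1 := by
            rw [hη, mul_one_div, div_le_one (by positivity)]
            linarith
    linarith
  have hupper : ∀ s : Fin n → ℝ, ‖∑ k, s k • x (σ k)‖ ≤ 51 * ‖s‖ := by
    intro s
    by_cases hs : s = 0
    · subst hs; simp
    have hpos : 0 < ‖s‖ := norm_pos_iff.mpr hs
    have h1 := hupper1 (‖s‖⁻¹ • s) (by
      rw [norm_smul, norm_inv, norm_norm, inv_mul_cancel₀ hpos.ne'])
    have h2 : ∑ k, (‖s‖⁻¹ • s) k • x (σ k) = ‖s‖⁻¹ • ∑ k, s k • x (σ k) := by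
      rw [Finset.smul_sum]
      refine Finset.sum_congr rfl fun k _ => ?_
      rw [Pi.smul_apply, smul_eq_mul, mul_smul]
    rw [h2, norm_smul, norm_inv, norm_norm, inv_mul_le_iff₀ hpos] at h1
    linarith
  refine ⟨2, 102, by norm_num, by norm_num, by norm_num, fun s => ⟨?_, ?_⟩⟩
  · -- lower bound
    set t : Fin K → ℝ := ∑ k, s k • (Pi.single (σ k) 1 : Fin K → ℝ) with ht
    have h1 : ∀ k, t (σ k) = s k := by
      intro k
      rw [ht, Finset.sum_apply, Finset.sum_eq_single k]
      · simp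
      · intro j _ hj
        rw [Pi.smul_apply, Pi.single_eq_of_ne, smul_zero]
        exact fun h' => hj (σ.injective h'.symm)
      · intro h; exact absurd (Finset.mem_univ _) h
    have h2 : ‖s‖ ≤ 2 * N t := by
      rw [pi_norm_le_iff_of_nonneg]
      · intro k
        rw [← h1 k]
        exact hE.coord_le t (σ k)
      · have := hE.coord_le t (σ ⟨0, hn⟩)
        exact (abs_nonneg _).trans this
    show 2⁻¹ * ‖s‖ ≤ N t
    linarith
  · show N (∑ k, s k • (Pi.single (σ k) 1 : Fin K → ℝ)) ≤ 102 * ‖s‖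
    have h1 := (hequiv (∑ k, s k • (Pi.single (σ k) 1 : Fin K → ℝ))).1
    unfold seqN at h1
    rw [hsum s, inv_mul_le_iff₀ ha] at h1
    have h2 := hupper s
    have h3 := norm_nonneg s
    calc N (∑ k, s k • (Pi.single (σ k) 1 : Fin K → ℝ)) ≤ a * ‖∑ k, s k • x (σ k)‖ := h1
      _ ≤ 2 * (51 * ‖s‖) := mul_le_mul ha2 h2 (norm_nonneg _) (by norm_num)
      _ = _ := by ring

end

end Pool.Agent.Helper23.AC
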