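import Pool.Agent.Helper23.AC.UBall

/-! AC-12a: functionals on pairs and groups (MP_981e7e_an) -/

set_option autoImplicit false

namespace Pool.Agent.Helper23.AC

open Finset

theorem IsPair.abs_le {L l r : ℕ} {y : Fn} {w : ℕ → ℝ} (hw : IsPair L l r y w) (n : ℕ) :
    |w n| ≤ 8 := by
  have h1 : Typ 1 (Finsupp.single n (1 / 8 : ℝ)) := typ_single n (by norm_num)
  have h2 := hw.wnorm _ (typ_good h1 le_rfl (Nat.zero_le 1))
  rw [pr_single, abs_mul, abs_of_pos (by norm_num : (0 : ℝ) < 1 / 8)] at h2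
  linarith

/-- the pairing of a type-`v` functional with a pair supported in `[l, r]` -/
theorem IsPair.abs_pr_le {L l r v : ℕ} {y : Fn} {w : ℕ → ℝ} (hw : IsPair L l r y w) (hl : 1 ≤ l)
    (hlr : l ≤ r) {f : Fn} (hf : Typ v f) : |pr f w| ≤ 8 * r * (1 / 8 : ℝ) ^ v := by
  have h1 : pr f w = ∑ n ∈ Finset.Icc l r, f n * w n := by
    unfold pr
    have h2 : ∑ n ∈ f.support, f n * w n = ∑ n ∈ f.support ∪ Finset.Icc l r, f n * w n := by
      apply Finset.sum_subset Finset.subset_union_left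
      intro n _ hn
      rw [Finsupp.notMem_support_iff.mp hn, zero_mul]
    rw [h2]
    symm
    apply Finset.sum_subset Finset.subset_union_right
    intro n _ hn
    have : w n = 0 := by
      by_contra h
      have := hw.wsupp n h
      exact hn (Finset.mem_Icc.mpr this)
    rw [this, mul_zero]
  rw [h1]
  calc |∑ n ∈ Finset.Icc l r, f n * w n| ≤ ∑ n ∈ Finset.Icc l r, |f n * w n| :=
        Finset.abs_sum_le_sum_abs _ _
    _ ≤ ∑ n ∈ Finset.Icc l r, (1 / 8 : ℝ) ^ v * 8 := by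
        refine Finset.sum_le_sum fun n _ => ?_
        rw [abs_mul]
        exact mul_le_mul (typ_sup hf n) (hw.abs_le n) (abs_nonneg _) (by positivity)
    _ = ((r + 1 - l : ℕ) : ℝ) * ((1 / 8 : ℝ) ^ v * 8) := by
        rw [Finset.sum_const, Nat.card_Icc, nsmul_eq_mul]
    _ ≤ (r : ℝ) * ((1 / 8 : ℝ) ^ v * 8) := by
        apply mul_le_mul_of_nonneg_right _ (by positivity)
        have : r + 1 - l ≤ r := by omega
        exact_mod_cast this
    _ = _ := by ring

private theorem ten_le (v : ℕ) : (10 + 8 * v : ℝ) ≤ 10 * 2 ^ v := by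
  induction v with
  | zero => norm_num
  | succ n ih =>
    rw [pow_succ]
    push_cast
    have : (1 : ℝ) ≤ 2 ^ n := one_le_pow₀ (by norm_num)
    nlinarith

private theorem geom4 (s : Finset ℕ) (t : ℕ) (hs : ∀ v ∈ s, t ≤ v) :
    ∑ v ∈ s, (1 / 4 : ℝ) ^ v ≤ 4 / 3 * (1 / 4 : ℝ) ^ t := by
  have hsum : Summable fun v : ℕ => (1 / 4 : ℝ) ^ v :=
    summable_geometric_of_lt_one (by norm_num) (by norm_num)
  have h1 : ∑ v ∈ s, (1 / 4 : ℝ) ^ v =
      (1 / 4 : ℝ) ^ t * ∑ v ∈ s.image (fun v => v - t), (1 / 4 : ℝ) ^ v := by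
    rw [Finset.sum_image, Finset.mul_sum]
    · refine Finset.sum_congr rfl fun v hv => ?_
      rw [← pow_add]
      congr 1
      have := hs v hv
      omega
    · intro a ha b hb hab
      have h1 := hs a ha
      have h2 := hs b hb
      simp only at hab
      omega
  rw [h1, mul_comm]
  apply mul_le_mul_of_nonneg_right _ (by positivity)
  refine (hsum.sum_le_tsum _ fun v _ => by positivity).trans ?_
  rw [tsum_geometric_of_lt_one (by norm_num) (by norm_num)]
  norm_num

/-- a functional all of whose types are `≥ t` on one pair -/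
theorem pair_good {L l r t : ℕ} {y : Fn} {w : ℕ → ℝ} (hw : IsPair L l r y w) (hlr : l ≤ r)
    (hL : L < l) {p : Fn} {F : ℕ → Fn} (hp : UB 1 p)
    (hF : ∀ v ∈ p.support, t ≤ v ∧ 1 ≤ v ∧ Typ v (F v)) :
    |pr (∑ v ∈ p.support, p v • F v) w| ≤ 23 * (1 / 4 : ℝ) ^ t +
      ∑ v ∈ p.support.filter (fun v => L < v ∧ v ≤ r), |p v| * |pr (F v) w| := by
  rw [pr_sum]
  have h1 : |∑ v ∈ p.support, pr (p v • F v) w| ≤ ∑ v ∈ p.support, |p v| * |pr (F v) w| := by
    refine (Finset.abs_sum_le_sum_abs _ _).trans (le_of_eq ?_)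
    refine Finset.sum_congr rfl fun v _ => ?_
    rw [pr_smul, abs_mul]
  refine h1.trans ?_
  rw [← Finset.sum_filter_add_sum_filter_not p.support (fun v => L < v ∧ v ≤ r), add_comm]
  apply add_le_add _ le_rfl
  have h2 : ∀ v ∈ p.support.filter (fun v => ¬ (L < v ∧ v ≤ r)),
      |p v| * |pr (F v) w| ≤ 10 * (1 / 4 : ℝ) ^ v := by
    intro v hv
    have hv' := Finset.mem_filter.mp hv
    obtain ⟨_, h1v, hT⟩ := hF v hv'.1
    have hp1 : |p v| ≤ 1 := ub_coord hp v
    have h3 : |pr (F v) w| ≤ (10 + 8 * v) * (1 / 8 : ℝ) ^ v := by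
      by_cases hvL : v ≤ L
      · refine (hw.low v h1v hvL _ hT).trans ?_
        apply mul_le_mul_of_nonneg_right _ (by positivity)
        have : (0 : ℝ) ≤ v := Nat.cast_nonneg v
        linarith
      · have hvr : r < v := by
          by_contra h
          exact hv'.2 ⟨not_le.mp hvL, not_lt.mp h⟩
        refine (hw.abs_pr_le (by omega) hlr hT).trans ?_
        apply mul_le_mul_of_nonneg_right _ (by positivity)
        have : (r : ℝ) ≤ v := by exact_mod_cast hvr.le
        linarith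
    calc |p v| * |pr (F v) w| ≤ 1 * ((10 + 8 * v) * (1 / 8 : ℝ) ^ v) :=
          mul_le_mul hp1 h3 (abs_nonneg _) zero_le_one
      _ ≤ (10 * 2 ^ v) * (1 / 8 : ℝ) ^ v := by
          rw [one_mul]
          exact mul_le_mul_of_nonneg_right (ten_le v) (by positivity)
      _ = 10 * (1 / 4 : ℝ) ^ v := by
          rw [mul_assoc, ← mul_pow]
          norm_num
  refine (Finset.sum_le_sum h2).trans ?_
  rw [← Finset.mul_sum]
  have h4 := geom4 (p.support.filter (fun v => ¬ (L < v ∧ v ≤ r))) t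
    (fun v hv => (hF v (Finset.mem_filter.mp hv).1).1)
  have h5 : (0 : ℝ) ≤ (1 / 4 : ℝ) ^ t := by positivity
  linarith

/-- the values of functionals of different types on one pair form a vector of the unit ball of the
modified Tsirelson space -/
theorem tau_omega {L l r : ℕ} {y : Fn} {w : ℕ → ℝ} (hw : IsPair L l r y w) (S : Finset ℕ)
    (F : ℕ → Fn) (hS : ∀ v ∈ S, 1 ≤ v ∧ Typ v (F v)) :
    tau (∑ v ∈ S, Finsupp.single v |pr (F v) w|) ≤ 1 := by
  classical
  apply tau_le
  intro t ht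
  rw [prA_comm, prA_sum_left_of_nonneg]
  swap
  · intro v _ n
    rw [Finsupp.single_apply]
    split
    · exact abs_nonneg _
    · exact le_rfl
  have h1 : ∀ v ∈ S, prA (Finsupp.single v |pr (F v) w|) t = t v * |pr (F v) w| := by
    intro v _
    rw [prA_single_left, abs_abs, abs_of_nonneg (tm_bounds ht v).1, mul_comm]
  rw [Finset.sum_congr rfl h1]
  -- the functional
  set q : Fn := ∑ v ∈ S, Finsupp.single v (SignType.sign (pr (F v) w) * t v) with hq
  have hqv : ∀ v, q v = if v ∈ S then SignType.sign (pr (F v) w) * t v else 0 := by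
    intro v
    rw [hq, Finsupp.finsetSum_apply]
    by_cases hv : v ∈ S
    · rw [if_pos hv, Finset.sum_eq_single v]
      · simp
      · intro u _ huv
        rw [Finsupp.single_apply, if_neg huv]
      · intro h; exact absurd hv h
    · rw [if_neg hv]
      apply Finset.sum_eq_zero
      intro u hu
      rw [Finsupp.single_apply, if_neg]
      rintro rfl
      exact hv hu
  have hqUB : UB 1 q := by
    apply ub_mono _ (ub_tm ht)
    intro v
    rw [hqv]
    split
    · rw [abs_mul]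
      have : |((SignType.sign (pr (F v) w) : SignType) : ℝ)| ≤ 1 := by
        rcases lt_trichotomy (pr (F v) w) 0 with h | h | h
        · rw [sign_neg h]; simp
        · rw [h, sign_zero]; simp
        · rw [sign_pos h]; simp
      nlinarith [abs_nonneg (t v)]
    · rw [abs_zero]; exact abs_nonneg _
  have hqs : q.support ⊆ S := by
    intro v hv
    by_contra h
    rw [Finsupp.mem_support_iff, hqv, if_neg h] at hv
    exact hv rfl
  have hG : Good 0 (∑ v ∈ q.support, q v • F v) := by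
    rw [good_iff]
    exact ⟨q, F, hqUB, fun v hv => ⟨Nat.zero_le _, hS v (hqs hv)⟩, rfl⟩
  have h2 := hw.wnorm _ hG
  have h3 : pr (∑ v ∈ q.support, q v • F v) w = ∑ v ∈ S, t v * |pr (F v) w| := by
    rw [pr_sum, Finset.sum_subset hqs]
    · refine Finset.sum_congr rfl fun v hv => ?_
      rw [pr_smul, hqv, if_pos hv]
      have : ((SignType.sign (pr (F v) w) : SignType) : ℝ) * pr (F v) w = |pr (F v) w| :=
        sign_mul_self _
      calc ((SignType.sign (pr (F v) w) : SignType) : ℝ) * t v * pr (F v) w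
          = t v * (((SignType.sign (pr (F v) w) : SignType) : ℝ) * pr (F v) w) := by ring
        _ = _ := by rw [this]
    · intro v _ hv
      rw [Finsupp.notMem_support_iff.mp hv, zero_smul, pr_zero]
  rw [h3] at h2
  exact (le_abs_self _).trans h2

/-- the pairing with the dual vector of a group -/
theorem pr_grp (v : ℕ) (F : Finset ℕ) (b : ℕ → ℝ) (w : ℕ → ℕ → ℝ) {β : ℕ → ℝ}
    (hβ : ∀ n, β n = 8 ^ v * ∑ s ∈ F, b s * w s n) (f : Fn) :
    pr f β = 8 ^ v * ∑ s ∈ F, b s * pr f (w s) := by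
  have h1 : β = fun n => ∑ s ∈ F, (8 ^ v * b s) * w s n := by
    funext n
    rw [hβ, Finset.mul_sum]
    exact Finset.sum_congr rfl fun s _ => by ring
  rw [h1, pr_fsum, Finset.mul_sum]
  exact Finset.sum_congr rfl fun s _ => by ring

/-- middle types -/
theorem grp_mid {v v' Lst lo hi : ℕ} {β : ℕ → ℝ} (hG : IsGrp v Lst lo hi β) (hv' : 1 ≤ v')
    (hL : v' ≤ Lst) {f : Fn} (hf : Typ v' f) : |pr f β| ≤ 10 * 8 ^ v * (1 / 8 : ℝ) ^ v' := by
  obtain ⟨F, b, y, w, l, r, L, hb, hb1, hp, hLs, hsep, hω, hβ⟩ := hG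
  rw [pr_grp v F b w hβ, abs_mul, abs_of_pos (by positivity : (0 : ℝ) < 8 ^ v)]
  have h1 : |∑ s ∈ F, b s * pr f (w s)| ≤ ∑ s ∈ F, b s * (10 * (1 / 8 : ℝ) ^ v') := by
    refine (Finset.abs_sum_le_sum_abs _ _).trans (Finset.sum_le_sum fun s hs => ?_)
    rw [abs_mul, abs_of_pos (hb s hs)]
    exact mul_le_mul_of_nonneg_left ((hp s hs).low v' hv' (hL.trans (hLs s hs).1) f hf)
      (hb s hs).le
  rw [← Finset.sum_mul, hb1, one_mul] at h1
  calc (8 : ℝ) ^ v * |∑ s ∈ F, b s * pr f (w s)| ≤ 8 ^ v * (10 * (1 / 8 : ℝ) ^ v') :=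
        mul_le_mul_of_nonneg_left h1 (by positivity)
    _ = _ := by ring

/-- the bound of the group times `8^v` is small -/
theorem grp_delta_le (v : ℕ) :
    (8 : ℝ) ^ v * (1 / (2 ^ (12 * v + 5) * bb (v - 1))) ≤ (1 / 8 : ℝ) ^ v := by
  have hb := one_le_bb (v - 1)
  have h1 : (8 : ℝ) ^ v * (1 / (2 ^ (12 * v + 5) * bb (v - 1))) ≤
      8 ^ v * (1 / (2 ^ (12 * v + 5) * 1)) := by
    apply mul_le_mul_of_nonneg_left _ (by positivity)
    apply one_div_le_one_div_of_le (by positivity)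
    exact mul_le_mul_of_nonneg_left hb (by positivity)
  refine h1.trans ?_
  rw [mul_one, mul_one_div, div_le_iff₀ (by positivity)]
  have h8 : (8 : ℝ) ^ v = 2 ^ (3 * v) := by rw [pow_mul]; norm_num
  have h8' : (1 / 8 : ℝ) ^ v * 2 ^ (3 * v) = 1 := by
    rw [pow_mul, ← mul_pow]
    norm_num
  calc (8 : ℝ) ^ v = (1 / 8 : ℝ) ^ v * 2 ^ (3 * v) * 2 ^ (3 * v) := by rw [h8', one_mul, h8]
    _ = (1 / 8 : ℝ) ^ v * 2 ^ (3 * v + 3 * v) := by rw [mul_assoc, ← pow_add]
    _ ≤ (1 / 8 : ℝ) ^ v * 2 ^ (12 * v + 5) := by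
        apply mul_le_mul_of_nonneg_left _ (by positivity)
        apply pow_le_pow_right₀ (by norm_num)
        omega

/-- high types -/
theorem grp_high {v Lst lo hi : ℕ} {β : ℕ → ℝ} (hG : IsGrp v Lst lo hi β) (hv : 1 ≤ v) {p : Fn}
    {F : ℕ → Fn} (hp : UB 1 p) (hF : ∀ v' ∈ p.support, Lst < v' ∧ Typ v' (F v')) :
    |pr (∑ v' ∈ p.support, p v' • F v') β| ≤ 23 * 8 ^ v * (1 / 4 : ℝ) ^ Lst + (1 / 8 : ℝ) ^ v := by
  obtain ⟨G, b, y, w, l, r, L, hb, hb1, hpr, hLs, hsep, hω, hβ⟩ := hG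
  set f := ∑ v' ∈ p.support, p v' • F v' with hf
  rw [pr_grp v G b w hβ, abs_mul, abs_of_pos (by positivity : (0 : ℝ) < 8 ^ v)]
  set ω : ℕ → Fn := fun s =>
    ∑ v' ∈ p.support.filter (fun v' => L s < v' ∧ v' ≤ r s), Finsupp.single v' |pr (F v') (w s)|
    with hωdef
  have hωnn : ∀ s n, 0 ≤ ω s n := by
    intro s n
    rw [hωdef]
    simp only [Finsupp.finsetSum_apply]
    refine Finset.sum_nonneg fun v' _ => ?_
    rw [Finsupp.single_apply]
    split
    · exact abs_nonneg _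
    · exact le_rfl
  have hωs : ∀ s ∈ G, (∀ n ∈ (ω s).support, L s < n ∧ n ≤ r s) ∧ tau (ω s) ≤ 1 := by
    intro s hs
    constructor
    · intro n hn
      have := Finsupp.support_finset_sum (f := fun v' => (Finsupp.single v' |pr (F v') (w s)| : Fn))
        (s := p.support.filter (fun v' => L s < v' ∧ v' ≤ r s)) hn
      rw [Finset.mem_biUnion] at this
      obtain ⟨v', hv', hn'⟩ := this
      have := Finsupp.support_single_subset hn'
      rw [Finset.mem_singleton] at this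
      subst this
      exact (Finset.mem_filter.mp hv').2
    · exact tau_omega (hpr s hs) _ F fun v' hv' =>
        ⟨by have := (hF v' (Finset.mem_filter.mp hv').1).1; omega,
          (hF v' (Finset.mem_filter.mp hv').1).2⟩
  have h1 : ∀ s ∈ G, |pr f (w s)| ≤ 23 * (1 / 4 : ℝ) ^ Lst + prA (ω s) p := by
    intro s hs
    have h2 := pair_good (t := Lst) (hpr s hs) (hLs s hs).2.2.1 (hLs s hs).2.1 hp
      (fun v' hv' => ⟨(hF v' hv').1.le, by have := (hF v' hv').1; omega, (hF v' hv').2⟩)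
    refine h2.trans (le_of_eq ?_)
    congr 1
    rw [hωdef]
    simp only
    rw [prA_sum_left_of_nonneg]
    · refine Finset.sum_congr rfl fun v' _ => ?_
      rw [prA_single_left, abs_abs, mul_comm]
    · intro v' _ n
      rw [Finsupp.single_apply]
      split
      · exact abs_nonneg _
      · exact le_rfl
  have h3 : ∑ s ∈ G, b s * prA (ω s) p ≤ 1 / (2 ^ (12 * v + 5) * bb (v - 1)) := by
    have h4 : ∑ s ∈ G, b s * prA (ω s) p = prA (∑ s ∈ G, b s • ω s) p := by
      rw [prA_sum_left_of_nonneg]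
      · refine Finset.sum_congr rfl fun s hs => ?_
        rw [prA_smul_left, abs_of_pos (hb s hs)]
      · intro s hs n
        rw [Finsupp.smul_apply, smul_eq_mul]
        exact mul_nonneg (hb s hs).le (hωnn s n)
    rw [h4, prA_comm]
    refine (hp _).trans ?_
    rw [one_mul]
    exact hω ω hωs
  have h5 : |∑ s ∈ G, b s * pr f (w s)| ≤
      23 * (1 / 4 : ℝ) ^ Lst + 1 / (2 ^ (12 * v + 5) * bb (v - 1)) := by
    calc |∑ s ∈ G, b s * pr f (w s)| ≤ ∑ s ∈ G, b s * |pr f (w s)| := by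
          refine (Finset.abs_sum_le_sum_abs _ _).trans (le_of_eq ?_)
          exact Finset.sum_congr rfl fun s hs => by rw [abs_mul, abs_of_pos (hb s hs)]
      _ ≤ ∑ s ∈ G, b s * (23 * (1 / 4 : ℝ) ^ Lst + prA (ω s) p) :=
          Finset.sum_le_sum fun s hs => mul_le_mul_of_nonneg_left (h1 s hs) (hb s hs).le
      _ = 23 * (1 / 4 : ℝ) ^ Lst + ∑ s ∈ G, b s * prA (ω s) p := by
          simp_rw [mul_add]
          rw [Finset.sum_add_distrib, ← Finset.sum_mul, hb1, one_mul]
      _ ≤ _ := by linarith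
  calc (8 : ℝ) ^ v * |∑ s ∈ G, b s * pr f (w s)|
      ≤ 8 ^ v * (23 * (1 / 4 : ℝ) ^ Lst + 1 / (2 ^ (12 * v + 5) * bb (v - 1))) :=
        mul_le_mul_of_nonneg_left h5 (by positivity)
    _ = 23 * 8 ^ v * (1 / 4 : ℝ) ^ Lst + 8 ^ v * (1 / (2 ^ (12 * v + 5) * bb (v - 1))) := by ring
    _ ≤ _ := by linarith [grp_delta_le v]

end Pool.Agent.Helper23.AC
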