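import Pool.Agent.Helper23.AC.Grp
import Pool.Agent.Helper23.AC.Upper
import Pool.Agent.Helper4.AC.Eval
import Pool.Agent.Helper40.AC.AsymGame
import Pool.Agent.Helper46.AC.Space
import Pool.Agent.Helper65.AC.GrpLow
import Pool.Agent.Helper91.AC.Lower

/-! The end of the proof (MP_981e7e_an) -/

set_option autoImplicit false

namespace Pool.Agent.Helper23.AC

theorem final : ∃ (X : Type) (_ : NormedAddCommGroup X) (_ : NormedSpace ℝ X)
    (_ : CompleteSpace X), AsymSubseqC0 X ∧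
      ∀ Y : Submodule ℝ X, IsClosed (Y : Set X) → ¬ FiniteDimensional ℝ Y → ¬ AsymC0 Y := by
  obtain ⟨X, i1, i2, i3, ⟨M⟩⟩ := exists_model
  refine ⟨X, i1, i2, i3, M.asymSubseqC0, fun Y _ hY => ?_⟩
  exact Pool.Agent.Helper91.AC.not_asymC0_of
    (fun hB hx v Lst r₀ hv => exists_grp hB hx v Lst r₀ hv)
    ⟨nx_zero, fun hx => nx_pos hx, fun ha hz x => pr_le_nx ha hz x⟩
    (fun M Y hY η hη => M.exists_blocks Y hY η hη)
    (fun ε hε => eval_groups_of
      (fun hv hv' hLst => grp_low hv hv' hLst) ε hε)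
    (fun hk c h => exists_asymStruct_of_game hk c h) M Y hY

end Pool.Agent.Helper23.AC
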