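import Pool.Agent.Helper23.AC.Pair
import Pool.Agent.Helper8.AC.Step1

/-! AC-11: existence of groups (MP_981e7e_an) -/

set_option autoImplicit false

namespace Pool.Agent.Helper23.AC

open Finset

theorem exists_grp {x : ℕ → Fn} {l r : ℕ → ℕ} (hB : Blk x l r) (hx : ∀ s, x s ≠ 0)
    (v Lst r₀ : ℕ) (hv : 2 ≤ v) :
    ∃ (u : Fn) (β : ℕ → ℝ) (lo hi : ℕ), u ∈ Submodule.span ℝ (Set.range x) ∧ r₀ < lo ∧
      (∀ n ∈ u.support, lo ≤ n ∧ n ≤ hi) ∧ IsGrp v Lst lo hi β ∧ pr u β = 1 ∧ nx u ≤ 24 := by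
  classical
  choose y₀ w₀ a₀ b₀ hspan₀ hLa₀ hab₀ hpair₀ using fun L : ℕ => exists_pair hB hx L L
  obtain ⟨Lq, hLq0, hLqs⟩ : ∃ Lq : ℕ → ℕ, Lq 0 = max Lst (r₀ + 1) ∧
      ∀ s, Lq (s + 1) = b₀ (Lq s) + 1 :=
    ⟨fun s => Nat.rec (max Lst (r₀ + 1)) (fun _ L => b₀ L + 1) s, rfl, fun s => rfl⟩
  have hLmono : StrictMono Lq := strictMono_nat_of_lt_succ fun s => by
    rw [hLqs]
    have h1 := hLa₀ (Lq s)
    have h2 := hab₀ (Lq s)
    omega
  set Y : ℕ → Fn := fun s => y₀ (Lq s) with hY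
  set W : ℕ → ℕ → ℝ := fun s => w₀ (Lq s) with hW
  set lq : ℕ → ℕ := fun s => a₀ (Lq s) with hlq
  set rq : ℕ → ℕ := fun s => b₀ (Lq s) with hrq
  have hlr : ∀ s, lq s ≤ rq s := fun s => hab₀ _
  have hLl : ∀ s, Lq s < lq s := fun s => hLa₀ _
  have hrL : ∀ s t, s < t → rq s < Lq t := by
    intro s t hst
    have h1 : Lq (s + 1) ≤ Lq t := hLmono.monotone hst
    rw [hLqs] at h1
    exact h1
  have hpair : ∀ s, IsPair (Lq s) (lq s) (rq s) (Y s) (W s) := fun s => hpair₀ _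
  have hblk : Blk (fun s => (1 / 2 : ℝ) • Y s) lq rq := by
    refine ⟨hlr, fun s => ?_, fun s n hn => ?_⟩
    · exact (hrL s (s + 1) (Nat.lt_succ_self s)).trans (hLl (s + 1))
    · exact (hpair s).ysupp n (Finsupp.support_smul hn)
  obtain ⟨σ, hσ, hstep⟩ := step1 hblk (fun s => by
    rw [nx_smul, abs_of_pos (by norm_num : (0 : ℝ) < 1 / 2)]
    have := (hpair s).ynorm
    linarith)
  have hσs : ∀ s, σ s < σ (s + 1) := fun s => hσ (Nat.lt_succ_self s)
  obtain ⟨F, b, hb, hb1, hUB, hω⟩ := exists_average (12 * v + 7 + 12 * (v - 1) ^ 2)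
    (fun s => rq (σ s) + 1) (fun s => rq (σ (s + 1)))
    (fun s => Nat.succ_le_of_lt (((hrL _ _ (hσs s)).trans (hLl _)).trans_le (hlr _)))
    (fun s => Nat.lt_succ_self _) 0
  have hb0 : ∀ i ∈ F, 0 < b i := fun i hi => (hb i hi).2
  -- the diagonal pairing
  have hdisj : ∀ i j, i ≠ j → pr (Y (σ (i + 1))) (W (σ (j + 1))) = 0 := by
    intro i j hij
    rw [pr]
    refine Finset.sum_eq_zero fun n hn => ?_
    by_contra hne
    have h1 := (hpair (σ (j + 1))).wsupp n (fun h => hne (by rw [h, mul_zero]))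
    have h2 := (hpair (σ (i + 1))).ysupp n hn
    rcases lt_or_gt_of_ne hij with h | h
    · have h3 := hrL (σ (i + 1)) (σ (j + 1)) (hσ (by omega))
      have h4 := hLl (σ (j + 1))
      omega
    · have h3 := hrL (σ (j + 1)) (σ (i + 1)) (hσ (by omega))
      have h4 := hLl (σ (i + 1))
      omega
  refine ⟨(1 / 8 : ℝ) ^ v • ∑ s ∈ F, Y (σ (s + 1)),
    fun n => 8 ^ v * ∑ s ∈ F, b s * W (σ (s + 1)) n, Lq 0,
    F.sup fun s => rq (σ (s + 1)), ?_, ?_, ?_, ?_, ?_, ?_⟩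
  · exact Submodule.smul_mem _ _ (Submodule.sum_mem _ fun s _ => hspan₀ _)
  · rw [hLq0]
    exact lt_of_lt_of_le (Nat.lt_succ_self _) (le_max_right _ _)
  · intro n hn
    have h1 := Finsupp.support_finsetSum (Finsupp.support_smul hn)
    rw [Finset.mem_biUnion] at h1
    obtain ⟨s, hs, hns⟩ := h1
    have h2 := (hpair (σ (s + 1))).ysupp n hns
    have h3 := hLl (σ (s + 1))
    have h4 : Lq 0 ≤ Lq (σ (s + 1)) := hLmono.monotone (Nat.zero_le _)
    have h5 : rq (σ (s + 1)) ≤ F.sup fun s => rq (σ (s + 1)) :=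
      Finset.le_sup (f := fun s => rq (σ (s + 1))) hs
    omega
  · refine ⟨F, b, fun s => Y (σ (s + 1)), fun s => W (σ (s + 1)), fun s => lq (σ (s + 1)),
      fun s => rq (σ (s + 1)), fun s => Lq (σ (s + 1)), hb0, hb1, fun s _ => hpair _, ?_, ?_, ?_,
      fun n => rfl⟩
    · intro s hs
      have h4 : Lq 0 ≤ Lq (σ (s + 1)) := hLmono.monotone (Nat.zero_le _)
      have h5 : rq (σ (s + 1)) ≤ F.sup fun s => rq (σ (s + 1)) :=
        Finset.le_sup (f := fun s => rq (σ (s + 1))) hs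
      have h6 : Lst ≤ Lq 0 := by rw [hLq0]; exact le_max_left _ _
      exact ⟨h6.trans h4, hLl _, hlr _, h4, h5⟩
    · intro s _ s' _ hss
      exact hrL _ _ (hσ (by omega))
    · intro ω hω'
      refine (hω ω fun s hs => ⟨fun n hn => ?_, (hω' s hs).2⟩).trans (le_of_eq ?_)
      · have h2 : Lq (σ (s + 1)) < n ∧ n ≤ rq (σ (s + 1)) := (hω' s hs).1 n hn
        have h3 := hrL _ _ (hσs s)
        exact ⟨by omega, h2.2⟩
      · rw [bb, ← pow_add, show 12 * v + 7 + 12 * (v - 1) ^ 2 =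
          (12 * v + 5 + 12 * (v - 1) ^ 2) + 2 by ring, pow_add (2 : ℝ) _ 2]
        have h7 : (0 : ℝ) < 2 ^ (12 * v + 5 + 12 * (v - 1) ^ 2) := by positivity
        field_simp
        norm_num
  · have h1 : (fun n => (8 : ℝ) ^ v * ∑ s ∈ F, b s * W (σ (s + 1)) n) =
        fun n => ∑ s ∈ F, (8 ^ v * b s) * W (σ (s + 1)) n := by
      funext n
      rw [Finset.mul_sum]
      exact Finset.sum_congr rfl fun s _ => by ring
    rw [h1, pr_smul, pr_sum]
    have h2 : ∀ i ∈ F, pr (Y (σ (i + 1))) (fun n => ∑ s ∈ F, (8 ^ v * b s) * W (σ (s + 1)) n) =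
        8 ^ v * b i := by
      intro i hi
      rw [pr_fsum, Finset.sum_eq_single i]
      · rw [(hpair _).pair, mul_one]
      · intro j _ hji
        rw [hdisj i j (Ne.symm hji), mul_zero]
      · intro h
        exact absurd hi h
    rw [Finset.sum_congr rfl h2, ← Finset.mul_sum, hb1, mul_one, ← mul_pow]
    norm_num
  · have h1 : (1 / 8 : ℝ) ^ v • ∑ s ∈ F, Y (σ (s + 1)) =
        (2 : ℝ) • ∑ s ∈ F, (fun _ : ℕ => (1 / 8 : ℝ) ^ v) s • ((1 / 2 : ℝ) • Y (σ (s + 1))) := by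
      rw [Finset.smul_sum, Finset.smul_sum]
      refine Finset.sum_congr rfl fun s _ => ?_
      rw [smul_smul, smul_smul]
      congr 1
      ring
    rw [h1, nx_smul]
    have h2 := hstep v (by omega) F (fun _ => (1 / 8 : ℝ) ^ v)
      (fun s _ => by rw [abs_of_pos (by positivity)]) ?_
    · rw [abs_of_pos (by norm_num : (0 : ℝ) < 2)]
      linarith
    · have h3 := ub_smul ((1 / 8 : ℝ) ^ v) hUB
      rw [Finset.smul_sum] at h3
      simp only [Finsupp.smul_single, smul_eq_mul, mul_one] at h3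
      refine ub_weaken ?_ h3
      rw [abs_of_pos (by positivity), bb]
      obtain ⟨k, rfl⟩ : ∃ k, v = k + 2 := ⟨v - 2, by omega⟩
      have h4 : (1 / 8 : ℝ) ^ (k + 2) = 1 / 2 ^ (3 * (k + 2)) := by
        rw [one_div, one_div, pow_mul, ← inv_pow]
        norm_num
      rw [h4, one_div, inv_mul_le_iff₀ (by positivity), ← pow_add]
      refine pow_le_pow_right₀ (by norm_num) ?_
      rw [show k + 2 - 1 = k + 1 by omega]
      nlinarith [sq_nonneg k]

end Pool.Agent.Helper23.AC
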