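import Pool.Agent.Helper23.AC.Tau

/-! AC-1b: the balls of the dual of the modified Tsirelson space (MP_981e7e_an) -/

set_option autoImplicit false

namespace Pool.Agent.Helper23.AC

open Finset

theorem ub_single_le {a lam : ℝ} (n : ℕ) (ha : |a| ≤ lam) : UB lam (Finsupp.single n a) := by
  intro β
  rw [prA_single_left]
  exact mul_le_mul ha (abs_le_tau β n) (abs_nonneg _) ((abs_nonneg a).trans ha)

theorem ub_single {a : ℝ} (n : ℕ) (ha : |a| ≤ 1) : UB 1 (Finsupp.single n a) :=
  ub_single_le n ha

theorem ub_coord {lam : ℝ} {c : Fn} (h : UB lam c) (n : ℕ) : |c n| ≤ lam := by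
  have h1 := h (Finsupp.single n 1)
  rwa [prA_single_right, tau_single, abs_one, mul_one, mul_one] at h1

theorem ub_nonneg {lam : ℝ} {c : Fn} (h : UB lam c) : 0 ≤ lam :=
  (abs_nonneg _).trans (ub_coord h 0)

theorem ub_zero {lam : ℝ} (h : 0 ≤ lam) : UB lam 0 := by
  intro β
  rw [prA_zero_left]
  exact mul_nonneg h (tau_nonneg β)

theorem ub_mono {lam : ℝ} {c c' : Fn} (h : ∀ n, |c n| ≤ |c' n|) (h' : UB lam c') : UB lam c :=
  fun β => (prA_mono_left h).trans (h' β)

theorem ub_weaken {lam mu : ℝ} {c : Fn} (h : lam ≤ mu) (h' : UB lam c) : UB mu c :=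
  fun β => (h' β).trans (mul_le_mul_of_nonneg_right h (tau_nonneg β))

theorem ub_add {lam mu : ℝ} {c c' : Fn} (h : UB lam c) (h' : UB mu c') :
    UB (lam + mu) (c + c') := by
  intro β
  calc prA (c + c') β ≤ prA c β + prA c' β := prA_add_left_le _ _ _
    _ ≤ lam * tau β + mu * tau β := add_le_add (h β) (h' β)
    _ = _ := by ring

theorem ub_smul {lam : ℝ} {c : Fn} (a : ℝ) (h : UB lam c) : UB (|a| * lam) (a • c) := by
  intro β
  rw [prA_smul_left, mul_assoc]
  exact mul_le_mul_of_nonneg_left (h β) (abs_nonneg a)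

theorem ub_sum {ι : Type*} (s : Finset ι) (lam : ι → ℝ) (c : ι → Fn)
    (h : ∀ i ∈ s, UB (lam i) (c i)) : UB (∑ i ∈ s, lam i) (∑ i ∈ s, c i) := by
  intro β
  calc prA (∑ i ∈ s, c i) β ≤ ∑ i ∈ s, prA (c i) β := prA_sum_left_le _ _ _
    _ ≤ ∑ i ∈ s, lam i * tau β := Finset.sum_le_sum fun i hi => h i hi β
    _ = _ := by rw [Finset.sum_mul]

theorem ub_tm {t : Fn} (ht : TM t) : UB 1 t := fun β => by
  rw [one_mul]; exact prA_le_tau ht β

theorem ub_res {lam : ℝ} {c : Fn} (h : UB lam c) (E : Set ℕ) : UB lam (res E c) := by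
  classical
  apply ub_mono _ h
  intro n
  rw [res_apply]
  split
  · exact le_rfl
  · rw [abs_zero]; exact abs_nonneg _

/-- pointwise limits -/
theorem ub_lim {lam : ℝ} {c : ℕ → Fn} {c' : Fn} (h : ∀ s, UB lam (c s))
    (hlim : ∀ n ∈ c'.support, Filter.Tendsto (fun s => c s n) Filter.atTop (nhds (c' n))) :
    UB lam c' := by
  intro β
  have h1 : Filter.Tendsto (fun s => ∑ n ∈ c'.support, |c s n| * |β n|) Filter.atTop
      (nhds (∑ n ∈ c'.support, |c' n| * |β n|)) := by
    apply tendsto_finsetSum
    intro n hn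
    exact ((hlim n hn).abs).mul_const _
  refine le_of_tendsto h1 (Filter.Eventually.of_forall fun s => ?_)
  refine le_trans ?_ (h s β)
  rw [prA_eq_sum (s := c'.support ∪ (c s).support) Finset.subset_union_right]
  exact Finset.sum_le_sum_of_subset_of_nonneg Finset.subset_union_left
    fun n _ _ => by positivity

/-- the part of `β` on the support of `c` -/
theorem prA_supp (c β : Fn) : prA c β = prA c (res (c.support : Set ℕ) β) := by
  classical
  unfold prA
  refine Finset.sum_congr rfl fun n hn => ?_
  rw [res_apply, if_pos (Finset.mem_coe.mpr hn)]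

/-- `d` disjoint elements supported on `[d, ∞)` -/
theorem ub_half {lam : ℝ} (d : ℕ) (c : Fin d → Fn) (hd : ∀ j, ∀ n ∈ (c j).support, d ≤ n)
    (hdisj : ∀ i j, i ≠ j → Disjoint (c i).support (c j).support) (h : ∀ j, UB lam (c j))
    (hlam : 0 ≤ lam) : UB (2 * lam) (∑ j, c j) := by
  classical
  intro β
  have h1 : prA (∑ j, c j) β ≤ ∑ j, prA (c j) (res ((c j).support : Set ℕ) β) := by
    refine (prA_sum_left_le _ _ _).trans (le_of_eq ?_)
    exact Finset.sum_congr rfl fun j _ => prA_supp _ _
  have h2 : ∑ j, prA (c j) (res ((c j).support : Set ℕ) β) ≤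
      lam * ∑ j, tau (res ((c j).support : Set ℕ) β) := by
    rw [Finset.mul_sum]
    exact Finset.sum_le_sum fun j _ => h j _
  have h3 := tau_half d (fun j => res ((c j).support : Set ℕ) β)
    (fun j n hn => hd j n (Finset.mem_coe.mp (res_support _ _ hn).2))
    (fun i j hij => Finset.disjoint_left.mpr fun n h1 h2 =>
      Finset.disjoint_left.mp (hdisj i j hij) (Finset.mem_coe.mp (res_support _ _ h1).2)
        (Finset.mem_coe.mp (res_support _ _ h2).2))
  have h4 : tau (∑ j, res ((c j).support : Set ℕ) β) ≤ tau β := by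
    apply tau_mono
    intro n
    rw [Finsupp.finsetSum_apply]
    by_cases hex : ∃ j, n ∈ (c j).support
    · obtain ⟨j, hj⟩ := hex
      rw [Finset.sum_eq_single j]
      · rw [res_apply, if_pos (Finset.mem_coe.mpr hj)]
      · intro i _ hij
        rw [res_apply, if_neg]
        intro h'
        exact Finset.disjoint_left.mp (hdisj i j hij) (Finset.mem_coe.mp h') hj
      · intro h'
        exact absurd (Finset.mem_univ j) h'
    · push Not at hex
      rw [Finset.sum_eq_zero]
      · rw [abs_zero]; exact abs_nonneg _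
      · intro j _
        rw [res_apply, if_neg]
        intro h'
        exact hex j (Finset.mem_coe.mp h')
  calc prA (∑ j, c j) β ≤ lam * ∑ j, tau (res ((c j).support : Set ℕ) β) := h1.trans h2
    _ = 2 * lam * ((1 / 2) * ∑ j, tau (res ((c j).support : Set ℕ) β)) := by ring
    _ ≤ 2 * lam * tau β := by
        apply mul_le_mul_of_nonneg_left (h3.trans h4) (by positivity)

/-- the key claim for compositions -/
theorem tm_comp {t : Fn} (ht : TM t) (S : ℕ → Set ℕ) (β : Fn)
    (hs : ∀ i ∈ t.support, ∀ n ∈ S i, i ≤ n)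
    (hdisj : ∀ i ∈ t.support, ∀ j ∈ t.support, i ≠ j → Disjoint (S i) (S j)) :
    ∑ i ∈ t.support, t i * tau (res (S i) β) ≤ tau (res (⋃ i ∈ t.support, S i) β) := by
  classical
  induction ht with
  | leaf i =>
    rw [Finsupp.support_single_ne_zero _ (one_ne_zero : (1 : ℝ) ≠ 0)]
    simp
  | node d t ht hd hd' ih =>
    have hval : ∀ n, ((1 / 2 : ℝ) • ∑ j, t j) n = (1 / 2 : ℝ) * ∑ j, t j n := by
      intro n
      rw [Finsupp.smul_apply, Finsupp.finsetSum_apply, smul_eq_mul]
    have hsub : ∀ j, (t j).support ⊆ ((1 / 2 : ℝ) • ∑ j, t j).support := by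
      intro j n hn
      rw [Finsupp.mem_support_iff, hval]
      have h1 : t j n ≤ ∑ j, t j n := Finset.single_le_sum
        (f := fun i => t i n) (fun i _ => (tm_bounds (ht i) n).1) (Finset.mem_univ j)
      have h2 : 0 < t j n := lt_of_le_of_ne (tm_bounds (ht j) n).1
        (Ne.symm (Finsupp.mem_support_iff.mp hn))
      have : 0 < (1 / 2 : ℝ) * ∑ j, t j n := by linarith
      exact this.ne'
    set T := ((1 / 2 : ℝ) • ∑ j, t j) with hT
    have h1 : ∑ i ∈ T.support, T i * tau (res (S i) β) =
        (1 / 2) * ∑ j, ∑ i ∈ (t j).support, t j i * tau (res (S i) β) := by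
      have hj : ∀ j, ∑ i ∈ (t j).support, t j i * tau (res (S i) β) =
          ∑ i ∈ T.support, t j i * tau (res (S i) β) := by
        intro j
        apply Finset.sum_subset (hsub j)
        intro n _ hn
        rw [Finsupp.notMem_support_iff.mp hn, zero_mul]
      simp_rw [hj]
      rw [Finset.sum_comm, Finset.mul_sum]
      refine Finset.sum_congr rfl fun i _ => ?_
      rw [hval, ← Finset.sum_mul, mul_assoc]
    rw [h1]
    have h2 : ∀ j, ∑ i ∈ (t j).support, t j i * tau (res (S i) β) ≤
        tau (res (⋃ i ∈ (t j).support, S i) β) := fun j =>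
      ih j (fun i hi => hs i (hsub j hi)) (fun i hi k hk => hdisj i (hsub j hi) k (hsub j hk))
    have h3 := tau_half d (fun j => res (⋃ i ∈ (t j).support, S i) β)
      (fun j n hn => by
        have := (res_support _ _ hn).2
        simp only [Set.mem_iUnion] at this
        obtain ⟨i, hi, hn'⟩ := this
        exact (hd j i hi).trans (hs i (hsub j hi) n hn'))
      (fun j k hjk => Finset.disjoint_left.mpr fun n hn1 hn2 => by
        have h1 := (res_support _ _ hn1).2
        have h2 := (res_support _ _ hn2).2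
        simp only [Set.mem_iUnion] at h1 h2
        obtain ⟨i, hi, hni⟩ := h1
        obtain ⟨i', hi', hni'⟩ := h2
        have hne : i ≠ i' := by
          rintro rfl
          exact Finset.disjoint_left.mp (hd' j k hjk) hi hi'
        exact Set.disjoint_left.mp (hdisj i (hsub j hi) i' (hsub k hi') hne) hni hni')
    have h4 : tau (∑ j, res (⋃ i ∈ (t j).support, S i) β) ≤ tau (res (⋃ i ∈ T.support, S i) β) := by
      apply tau_mono
      intro n
      rw [Finsupp.finsetSum_apply, res_apply]
      by_cases hex : ∃ j, n ∈ ⋃ i ∈ (t j).support, S i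
      · obtain ⟨j, hj⟩ := hex
        have hn : n ∈ ⋃ i ∈ T.support, S i := by
          simp only [Set.mem_iUnion] at hj ⊢
          obtain ⟨i, hi, hni⟩ := hj
          exact ⟨i, hsub j hi, hni⟩
        rw [if_pos hn, Finset.sum_eq_single j]
        · rw [res_apply, if_pos hj]
        · intro k _ hkj
          rw [res_apply, if_neg]
          intro h'
          simp only [Set.mem_iUnion] at hj h'
          obtain ⟨i, hi, hni⟩ := hj
          obtain ⟨i', hi', hni'⟩ := h'
          have hne : i' ≠ i := by
            rintro rfl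
            exact Finset.disjoint_left.mp (hd' k j hkj) hi' hi
          exact Set.disjoint_left.mp (hdisj i' (hsub k hi') i (hsub j hi) hne) hni' hni
        · intro h'
          exact absurd (Finset.mem_univ j) h'
      · push Not at hex
        rw [Finset.sum_eq_zero]
        · rw [abs_zero]; exact abs_nonneg _
        · intro j _
          rw [res_apply, if_neg (hex j)]
    calc (1 / 2) * ∑ j, ∑ i ∈ (t j).support, t j i * tau (res (S i) β)
        ≤ (1 / 2) * ∑ j, tau (res (⋃ i ∈ (t j).support, S i) β) := by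
          apply mul_le_mul_of_nonneg_left (Finset.sum_le_sum fun j _ => h2 j) (by norm_num)
      _ ≤ _ := h3.trans h4

/-- composition -/
theorem ub_comp {lam mu : ℝ} {c : Fn} (h : UB lam c) (hmu : 0 ≤ mu) (u : ℕ → Fn)
    (hu : ∀ i ∈ c.support, UB mu (u i)) (hs : ∀ i ∈ c.support, ∀ n ∈ (u i).support, i ≤ n)
    (hdisj : ∀ i ∈ c.support, ∀ j ∈ c.support, i ≠ j → Disjoint (u i).support (u j).support) :
    UB (lam * mu) (∑ i ∈ c.support, c i • u i) := by
  classical
  intro β
  set S : ℕ → Set ℕ := fun i => ((u i).support : Set ℕ) with hS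
  set β' : Fn := ∑ i ∈ c.support, Finsupp.single i (tau (res (S i) β)) with hβ'
  have hβval : ∀ i, β' i = if i ∈ c.support then tau (res (S i) β) else 0 := by
    intro i
    rw [hβ', Finsupp.finsetSum_apply]
    by_cases hi : i ∈ c.support
    · rw [if_pos hi, Finset.sum_eq_single i]
      · simp
      · intro j _ hji
        rw [Finsupp.single_apply, if_neg hji]
      · intro h'; exact absurd hi h'
    · rw [if_neg hi]
      apply Finset.sum_eq_zero
      intro j hj
      rw [Finsupp.single_apply, if_neg]
      rintro rfl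
      exact hi hj
  have h1 : prA (∑ i ∈ c.support, c i • u i) β ≤ mu * prA c β' := by
    calc prA (∑ i ∈ c.support, c i • u i) β ≤ ∑ i ∈ c.support, prA (c i • u i) β :=
          prA_sum_left_le _ _ _
      _ ≤ ∑ i ∈ c.support, mu * (|c i| * |β' i|) := by
          refine Finset.sum_le_sum fun i hi => ?_
          rw [prA_smul_left, prA_supp, hβval, if_pos hi, abs_of_nonneg (tau_nonneg _)]
          have := hu i hi (res (S i) β)
          calc |c i| * prA (u i) (res (S i) β) ≤ |c i| * (mu * tau (res (S i) β)) :=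
                mul_le_mul_of_nonneg_left this (abs_nonneg _)
            _ = _ := by ring
      _ = mu * prA c β' := by rw [← Finset.mul_sum]; rfl
  have h2 : tau β' ≤ tau β := by
    apply tau_le
    intro t ht
    have ht' := tm_res ht (c.support : Set ℕ)
    have hsub : (res (c.support : Set ℕ) t).support ⊆ c.support := fun n hn =>
      Finset.mem_coe.mp (res_support _ t hn).2
    have h3 : prA t β' = ∑ i ∈ (res (c.support : Set ℕ) t).support,
        (res (c.support : Set ℕ) t) i * tau (res (S i) β) := by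
      rw [prA_comm, prA_eq_sum (s := c.support)]
      · rw [Finset.sum_subset hsub]
        · refine Finset.sum_congr rfl fun i hi => ?_
          rw [hβval, if_pos hi, res_apply, if_pos (Finset.mem_coe.mpr hi),
            abs_of_nonneg (tau_nonneg _), abs_of_nonneg (tm_bounds ht i).1, mul_comm]
        · intro i _ hi
          rw [Finsupp.notMem_support_iff.mp hi, zero_mul]
      · intro i hi
        by_contra h'
        rw [Finsupp.mem_support_iff, hβval, if_neg h'] at hi
        exact hi rfl
    rw [h3]
    refine (tm_comp ht' S β (fun i hi n hn => hs i (hsub hi) n (Finset.mem_coe.mp hn))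
      (fun i hi j hj hij => ?_)).trans (tau_res_le _ _)
    exact Finset.disjoint_coe.mpr (hdisj i (hsub hi) j (hsub hj) hij)
  calc prA (∑ i ∈ c.support, c i • u i) β ≤ mu * prA c β' := h1
    _ ≤ mu * (lam * tau β') := mul_le_mul_of_nonneg_left (h β') hmu
    _ ≤ mu * (lam * tau β) := by
        apply mul_le_mul_of_nonneg_left _ hmu
        exact mul_le_mul_of_nonneg_left h2 (ub_nonneg h)
    _ = lam * mu * tau β := by ring

/-- moving to the right -/
theorem ub_move {lam : ℝ} {c : Fn} (h : UB lam c) (σ : ℕ → ℕ)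
    (hinj : ∀ i ∈ c.support, ∀ j ∈ c.support, σ i = σ j → i = j)
    (hσ : ∀ i ∈ c.support, i ≤ σ i) :
    UB lam (∑ i ∈ c.support, Finsupp.single (σ i) (c i)) := by
  have h1 := ub_comp h zero_le_one (fun i => Finsupp.single (σ i) 1)
    (fun i _ => ub_single _ (by simp))
    (fun i hi n hn => by
      rw [Finsupp.support_single_ne_zero _ (one_ne_zero : (1 : ℝ) ≠ 0), Finset.mem_singleton] at hn
      rw [hn]; exact hσ i hi)
    (fun i hi j hj hij => by
      rw [Finsupp.support_single_ne_zero _ (one_ne_zero : (1 : ℝ) ≠ 0),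
        Finsupp.support_single_ne_zero _ (one_ne_zero : (1 : ℝ) ≠ 0),
        Finset.disjoint_singleton]
      exact fun h' => hij (hinj i hi j hj h'))
  rw [mul_one] at h1
  have heq : ∑ i ∈ c.support, c i • (Finsupp.single (σ i) 1 : Fn) =
      ∑ i ∈ c.support, Finsupp.single (σ i) (c i) := by
    refine Finset.sum_congr rfl fun i _ => ?_
    rw [Finsupp.smul_single, smul_eq_mul, mul_one]
  rwa [heq] at h1

end Pool.Agent.Helper23.AC
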