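import Pool.Agent.Helper28.AC.PairOf
import Pool.Agent.Helper65.AC.Step2
import Pool.Agent.Helper87.AC.Average
import Pool.Agent.Helper8.AC.Norm

/-! AC-10: existence of pairs (MP_981e7e_an) -/

set_option autoImplicit false

namespace Pool.Agent.Helper23.AC

theorem exists_pair {x : ℕ → Fn} {l r : ℕ → ℕ} (hB : Blk x l r) (hx : ∀ s, x s ≠ 0)
    (L r₀ : ℕ) :
    ∃ (y : Fn) (w : ℕ → ℝ) (a b : ℕ), y ∈ Submodule.span ℝ (Set.range x) ∧ r₀ < a ∧ a ≤ b ∧
      IsPair L a b y w :=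
  H28.exists_pair_of (fun k A B hAB hsep s₀ => exists_average k A B hAB hsep s₀)
    (fun hx hs => exists_norming hx hs) (fun hB hx k => step2 hB hx k) hB hx L r₀

end Pool.Agent.Helper23.AC
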