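import Pool.Agent.Helper23.AC.UBall

/-! AC-4: peeling off the first child (MP_981e7e_an) -/

set_option autoImplicit false

namespace Pool.Agent.Helper23.AC

open Finset

/-- absolutely convex combinations -/
theorem abs_comb_mem {ι : Type*} {H : Set Fn} (hH : Convex ℝ H) (h0 : (0 : Fn) ∈ H)
    (hneg : ∀ x ∈ H, -x ∈ H) (s : Finset ι) (a : ι → ℝ) (x : ι → Fn) (hx : ∀ i ∈ s, x i ∈ H)
    (ha : ∑ i ∈ s, |a i| ≤ 1) : ∑ i ∈ s, a i • x i ∈ H := by
  classical
  set A := ∑ i ∈ s, |a i| with hA
  have hA0 : 0 ≤ A := Finset.sum_nonneg fun i _ => abs_nonneg _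
  rcases hA0.eq_or_lt with hz | hpos
  · have hall : ∀ i ∈ s, a i = 0 := by
      intro i hi
      have := (Finset.sum_eq_zero_iff_of_nonneg (fun i _ => abs_nonneg (a i))).mp
        (hA.symm.trans hz.symm) i hi
      exact abs_eq_zero.mp this
    rw [Finset.sum_eq_zero fun i hi => by rw [hall i hi, zero_smul]]
    exact h0
  · have h1 : ∑ i ∈ s, (|a i| / A) • (if 0 ≤ a i then x i else -x i) ∈ H := by
      apply hH.sum_mem
      · intro i _; positivity
      · rw [← Finset.sum_div, ← hA, div_self hpos.ne']
      · intro i hi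
        split
        · exact hx i hi
        · exact hneg _ (hx i hi)
    have h2 : ∑ i ∈ s, a i • x i = A • ∑ i ∈ s, (|a i| / A) • (if 0 ≤ a i then x i else -x i) := by
      rw [Finset.smul_sum]
      refine Finset.sum_congr rfl fun i _ => ?_
      rw [smul_smul, mul_div_cancel₀ _ hpos.ne']
      split
      · next h => rw [abs_of_nonneg h]
      · next h => rw [abs_of_neg (not_le.mp h), smul_neg, neg_smul, neg_neg]
    rw [h2]
    exact hH.smul_mem_of_zero_mem h0 h1 ⟨hA0, ha⟩

/-- the generators: sums over the types with all positions in `[l, r]` -/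
def HSet (l r : ℕ) : Set Fn :=
  {h : Fn | ∃ (p : Fn) (F : ℕ → Fn), UB 1 p ∧
        (∀ v ∈ p.support, 1 ≤ v ∧ TypIn v l r (F v)) ∧ h = ∑ v ∈ p.support, p v • F v}

theorem zero_mem_HSet (l r : ℕ) : (0 : Fn) ∈ HSet l r :=
  ⟨0, fun _ => 0, ub_zero zero_le_one, by simp, by simp⟩

theorem neg_mem_HSet {l r : ℕ} {h : Fn} (hh : h ∈ HSet l r) : -h ∈ HSet l r := by
  obtain ⟨p, F, hp, hF, rfl⟩ := hh
  refine ⟨-p, F, ub_mono (fun n => by simp) hp, fun v hv => hF v (by simpa using hv), ?_⟩
  rw [Finsupp.support_neg, ← Finset.sum_neg_distrib]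
  refine Finset.sum_congr rfl fun v _ => ?_
  rw [Finsupp.neg_apply, neg_smul]

theorem neg_mem_hull {l r : ℕ} {h : Fn} (hh : h ∈ convexHull ℝ (HSet l r)) :
    -h ∈ convexHull ℝ (HSet l r) := by
  have h1 : (convexHull ℝ (HSet l r)) ⊆ (-(LinearMap.id : Fn →ₗ[ℝ] Fn)) ⁻¹'
      (convexHull ℝ (HSet l r)) := by
    apply convexHull_min
    · intro x hx
      exact subset_convexHull ℝ _ (neg_mem_HSet hx)
    · exact (convex_convexHull ℝ _).linear_preimage _
  exact h1 hh

theorem single_mem_HSet {l r n : ℕ} (h : l ≤ n ∧ n ≤ r) :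
    (Finsupp.single n (1 / 8) : Fn) ∈ HSet l r := by
  have h8 : (1 / 8 : ℝ) ≠ 0 := by norm_num
  refine ⟨Finsupp.single 1 1, fun _ => Finsupp.single n (1 / 8), ub_single _ (by simp), ?_, ?_⟩
  · intro v hv
    rw [Finsupp.support_single_ne_zero _ one_ne_zero, Finset.mem_singleton] at hv
    subst hv
    refine ⟨le_rfl, Finsupp.single n (1 / 8), fun _ => Finsupp.single n 1, ⟨?_, ?_, ?_, ?_, ?_⟩,
      ?_, ?_, ?_⟩
    · intro π
      rw [Finsupp.single_apply]
      split <;> norm_num
    · exact ub_single_le n (le_trans (by norm_num) (one_le_bb 1))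
    · intro π _
      exact Or.inl ⟨n, rfl⟩
    · intro π hπ m hm
      rw [Finsupp.support_single_ne_zero _ h8, Finset.mem_singleton] at hπ
      rw [Finsupp.support_single_ne_zero _ one_ne_zero, Finset.mem_singleton] at hm
      rw [hπ, hm]
    · intro π hπ π' hπ' hlt
      rw [Finsupp.support_single_ne_zero _ h8, Finset.mem_singleton] at hπ hπ'
      omega
    · intro π hπ
      rw [Finsupp.support_single_ne_zero _ h8, Finset.mem_singleton] at hπ
      rw [hπ]; exact h
    · intro π _ m hm
      rw [Finsupp.support_single_ne_zero _ one_ne_zero, Finset.mem_singleton] at hm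
      rw [hm]; exact h.2
    · unfold patF
      rw [Finsupp.support_single_ne_zero _ h8, Finset.sum_singleton]
      simp
  · rw [Finsupp.support_single_ne_zero _ one_ne_zero, Finset.sum_singleton]
    simp

/-- the part of a pattern with positions in `[l, r]`, restricted to `[l, r]` -/
theorem typIn_part {v : ℕ} {c : Fn} {g : ℕ → Fn} (h : Pat v c g) (l r : ℕ) :
    TypIn v l r (patF (res (Set.Icc l r) c) (fun π => res (Set.Icc l r) (g π))) := by
  classical
  have hs : (res (Set.Icc l r) c).support ⊆ c.support := fun n hn => (res_support _ c hn).1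
  have hle : ∀ n, |res (Set.Icc l r) c n| ≤ |c n| := by
    intro n
    rw [res_apply]
    split
    · exact le_rfl
    · rw [abs_zero]; exact abs_nonneg _
  refine ⟨_, _, pat_of_le (pat_res h _) hs (fun π => (hle π).trans (h.c1 π))
    (ub_mono hle h.c2), ?_, ?_, rfl⟩
  · intro π hπ
    exact (res_support _ c hπ).2
  · intro π _ n hn
    exact (res_support _ _ hn).2.2

/-- Peeling off the first child: the restriction to `[l, r]` of an element of the norming set is
`3` times a convex combination of functionals with all positions in `[l, r]`. -/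
theorem good_peel {t : ℕ} {f : Fn} (hf : Good t f) (l r : ℕ) :
    ∃ h ∈ convexHull ℝ {h : Fn | ∃ (p : Fn) (F : ℕ → Fn), UB 1 p ∧
        (∀ v ∈ p.support, 1 ≤ v ∧ TypIn v l r (F v)) ∧ h = ∑ v ∈ p.support, p v • F v},
      res (Set.Icc l r) f = (3 : ℝ) • h := by
  classical
  change ∃ h ∈ convexHull ℝ (HSet l r), res (Set.Icc l r) f = (3 : ℝ) • h
  set H := convexHull ℝ (HSet l r) with hH
  have hHc : Convex ℝ H := convex_convexHull ℝ _
  have hH0 : (0 : Fn) ∈ H := subset_convexHull ℝ _ (zero_mem_HSet l r)
  have hHn : ∀ x ∈ H, -x ∈ H := fun x hx => neg_mem_hull hx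
  set E : Set ℕ := Set.Icc l r with hE
  induction hf with
  | mk t p c g hp ht hc1 hc2 hg hs1 hs2 ih =>
    -- the pattern of type `v`
    have hPat : ∀ v ∈ p.support, Pat v (c v) (g v) := fun v hv =>
      ⟨hc1 v hv, hc2 v hv, fun π hπ => by
        by_cases h : ∃ n, g v π = Finsupp.single n 1
        · exact Or.inl h
        · exact Or.inr (hg v hv π hπ h), hs1 v hv, hs2 v hv⟩
    -- every restricted child is in `8 H`
    have hchild : ∀ v ∈ p.support, ∀ π ∈ (c v).support,
        ∃ h' ∈ H, res E (g v π) = (8 : ℝ) • h' := by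
      intro v hv π hπ
      by_cases h : ∃ n, g v π = Finsupp.single n 1
      · obtain ⟨n, hn⟩ := h
        rw [hn, res_single]
        split
        · next hnE =>
          refine ⟨Finsupp.single n (1 / 8), subset_convexHull ℝ _ (single_mem_HSet hnE), ?_⟩
          rw [Finsupp.smul_single]
          norm_num
        · exact ⟨0, hH0, by simp⟩
      · obtain ⟨h', hh', he⟩ := ih v hv π hπ h
        refine ⟨(3 / 8 : ℝ) • h', hHc.smul_mem_of_zero_mem hH0 hh' (by norm_num), ?_⟩
        rw [he, smul_smul]
        norm_num
    -- the decomposition of every pattern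
    have hdec : ∀ v, ∃ (a : ℝ) (h' : Fn), h' ∈ H ∧ (v ∈ p.support → |a| ≤ (1 / 8 : ℝ) ^ v ∧
        res E (patF (c v) (g v)) =
          (8 * a) • h' + patF (res E (c v)) (fun π => res E (g v π))) := by
      intro v
      by_cases hv : v ∈ p.support
      swap
      · exact ⟨0, 0, hH0, fun h => absurd h hv⟩
      have hB : patF (res E (c v)) (fun π => res E (g v π)) =
          ∑ π ∈ (c v).support.filter (fun π => l ≤ π), c v π • res E (g v π) := by
        unfold patF
        have hs : (res E (c v)).support ⊆ (c v).support.filter (fun π => l ≤ π) := by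
          intro π hπ
          have := res_support _ _ hπ
          exact Finset.mem_filter.mpr ⟨this.1, this.2.1⟩
        rw [Finset.sum_subset hs]
        · refine Finset.sum_congr rfl fun π hπ => ?_
          have hπ' := Finset.mem_filter.mp hπ
          rw [res_apply]
          split
          · rfl
          · next hnE =>
            have hr : r < π := by
              by_contra hle
              exact hnE ⟨hπ'.2, not_lt.mp hle⟩
            have hz : res E (g v π) = 0 := by
              ext n
              rw [res_apply]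
              split
              · next hnn =>
                by_contra hne
                have := hs1 v hv π hπ'.1 n (Finsupp.mem_support_iff.mpr hne)
                have := hnn.2
                omega
              · rfl
            simp only [hz, smul_zero]
        · intro π hπ hπ2
          rw [Finsupp.notMem_support_iff.mp hπ2, zero_smul]
      have hsplit : res E (patF (c v) (g v)) =
          ∑ π ∈ (c v).support.filter (fun π => ¬ l ≤ π), c v π • res E (g v π) +
          ∑ π ∈ (c v).support.filter (fun π => l ≤ π), c v π • res E (g v π) := by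
        rw [res_patF]
        unfold patF
        rw [add_comm, Finset.sum_filter_add_sum_filter_not]
      by_cases hne : ((c v).support.filter (fun π => ¬ l ≤ π)).Nonempty
      · set π₀ := ((c v).support.filter (fun π => ¬ l ≤ π)).max' hne with hπ₀
        have hmem := Finset.max'_mem _ hne
        rw [← hπ₀] at hmem
        have hmem' := Finset.mem_filter.mp hmem
        obtain ⟨h', hh', he⟩ := hchild v hv π₀ hmem'.1
        refine ⟨c v π₀, h', hh', fun _ => ⟨hc1 v hv π₀, ?_⟩⟩
        rw [hsplit, hB]
        congr 1
        rw [Finset.sum_eq_single π₀]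
        · rw [he, smul_smul, mul_comm]
        · intro π hπ hπne
          have hπ' := Finset.mem_filter.mp hπ
          have hlt : π < π₀ := lt_of_le_of_ne (Finset.le_max' _ π hπ) hπne
          have hz : res E (g v π) = 0 := by
            ext n
            rw [res_apply]
            split
            · next hnn =>
              by_contra hne'
              have := hs2 v hv π hπ'.1 π₀ hmem'.1 hlt n (Finsupp.mem_support_iff.mpr hne')
              have := hnn.1
              have := hmem'.2
              omega
            · rfl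
          rw [hz, smul_zero]
        · intro h; exact absurd hmem h
      · refine ⟨0, 0, hH0, fun _ => ⟨by rw [abs_zero]; positivity, ?_⟩⟩
        rw [hsplit, hB, Finset.not_nonempty_iff_eq_empty.mp hne]
        simp
    choose a h' hh' hdec' using hdec
    set b : Fn := ∑ v ∈ p.support, p v • patF (res E (c v)) (fun π => res E (g v π)) with hb
    have hbH : b ∈ H := by
      apply subset_convexHull ℝ _
      exact ⟨p, fun v => patF (res E (c v)) (fun π => res E (g v π)), hp,
        fun v hv => ⟨(ht v hv).2, typIn_part (hPat v hv) l r⟩, rfl⟩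
    set y : Fn := ∑ v ∈ p.support, (7 * (p v * a v)) • h' v with hy
    have hyH : y ∈ H := by
      apply abs_comb_mem hHc hH0 hHn _ _ _ (fun v _ => hh' v)
      have h1 : ∀ v ∈ p.support, |7 * (p v * a v)| ≤ 7 * (1 / 8 : ℝ) ^ v := by
        intro v hv
        rw [abs_mul, abs_mul, abs_of_pos (by norm_num : (0 : ℝ) < 7)]
        have h2 := ub_coord hp v
        have h3 := (hdec' v hv).1
        have h4 : |p v| * |a v| ≤ 1 * (1 / 8 : ℝ) ^ v :=
          mul_le_mul h2 h3 (abs_nonneg _) zero_le_one
        linarith
      refine (Finset.sum_le_sum h1).trans ?_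
      rw [← Finset.mul_sum]
      have := sum_geom_le p.support (fun v hv => (ht v hv).2)
      linarith
    have hres : res E (∑ v ∈ p.support, p v • ∑ π ∈ (c v).support, c v π • g v π) =
        b + (8 / 7 : ℝ) • y := by
      rw [res_sum, hb, hy, Finset.smul_sum, ← Finset.sum_add_distrib]
      refine Finset.sum_congr rfl fun v hv => ?_
      have := (hdec' v hv).2
      unfold patF at this ⊢
      rw [res_smul, this, smul_add, add_comm, smul_smul, smul_smul]
      congr 2
      ring
    refine ⟨(1 / 3 : ℝ) • b + (8 / 21 : ℝ) • y, ?_, ?_⟩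
    · have h1 : ((1 / 3 : ℝ) • b + (8 / 21 : ℝ) • y) =
          (5 / 7 : ℝ) • ((7 / 15 : ℝ) • b + (8 / 15 : ℝ) • y) := by
        rw [smul_add, smul_smul, smul_smul]
        norm_num
      rw [h1]
      apply hHc.smul_mem_of_zero_mem hH0 _ (by norm_num)
      exact hHc hbH hyH (by norm_num) (by norm_num) (by norm_num)
    · rw [hres, smul_add, smul_smul, smul_smul]
      norm_num

end Pool.Agent.Helper23.AC
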