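import Pool.Agent.Helper23.AC.Basics

/-! AC-1a: the modified Tsirelson norm (MP_981e7e_an) -/

set_option autoImplicit false

namespace Pool.Agent.Helper23.AC

open Finset

theorem prA_eq_sum {c β : Fn} {s : Finset ℕ} (h : c.support ⊆ s) :
    prA c β = ∑ n ∈ s, |c n| * |β n| := by
  unfold prA
  apply Finset.sum_subset h
  intro n _ hn
  rw [Finsupp.notMem_support_iff.mp hn]
  simp

theorem prA_comm (c β : Fn) : prA c β = prA β c := by
  rw [prA_eq_sum (s := c.support ∪ β.support) Finset.subset_union_left,
    prA_eq_sum (s := c.support ∪ β.support) Finset.subset_union_right]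
  exact Finset.sum_congr rfl fun n _ => mul_comm _ _

theorem prA_nonneg (c β : Fn) : 0 ≤ prA c β := Finset.sum_nonneg fun n _ => by positivity

theorem prA_mono_left {c c' β : Fn} (h : ∀ n, |c n| ≤ |c' n|) : prA c β ≤ prA c' β := by
  rw [prA_eq_sum (s := c.support ∪ c'.support) Finset.subset_union_left,
    prA_eq_sum (s := c.support ∪ c'.support) Finset.subset_union_right]
  exact Finset.sum_le_sum fun n _ => mul_le_mul_of_nonneg_right (h n) (abs_nonneg _)

theorem prA_mono_right {c β γ : Fn} (h : ∀ n, |β n| ≤ |γ n|) : prA c β ≤ prA c γ := by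
  rw [prA_comm c β, prA_comm c γ]
  exact prA_mono_left h

theorem prA_add_right_le (c β γ : Fn) : prA c (β + γ) ≤ prA c β + prA c γ := by
  unfold prA
  rw [← Finset.sum_add_distrib]
  refine Finset.sum_le_sum fun n _ => ?_
  rw [Finsupp.add_apply]
  nlinarith [abs_add_le (β n) (γ n), abs_nonneg (c n)]

theorem prA_smul_right (c β : Fn) (a : ℝ) : prA c (a • β) = |a| * prA c β := by
  unfold prA
  rw [Finset.mul_sum]
  refine Finset.sum_congr rfl fun n _ => ?_
  rw [Finsupp.smul_apply, smul_eq_mul, abs_mul]
  ring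

theorem prA_zero_right (c : Fn) : prA c 0 = 0 := by simp [prA]

theorem prA_zero_left (c : Fn) : prA 0 c = 0 := by simp [prA]

theorem prA_add_left_le (c c' β : Fn) : prA (c + c') β ≤ prA c β + prA c' β := by
  rw [prA_comm, prA_comm c, prA_comm c']
  exact prA_add_right_le _ _ _

theorem prA_smul_left (c β : Fn) (a : ℝ) : prA (a • c) β = |a| * prA c β := by
  rw [prA_comm, prA_smul_right, prA_comm]

theorem prA_single_left (n : ℕ) (a : ℝ) (β : Fn) :
    prA (Finsupp.single n a) β = |a| * |β n| := by
  rw [prA_eq_sum (s := {n}) Finsupp.support_single_subset]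
  simp

theorem prA_single_right (n : ℕ) (a : ℝ) (c : Fn) :
    prA c (Finsupp.single n a) = |c n| * |a| := by
  rw [prA_comm, prA_single_left, mul_comm]

theorem prA_sum_left_le {ι : Type*} (s : Finset ι) (c : ι → Fn) (β : Fn) :
    prA (∑ i ∈ s, c i) β ≤ ∑ i ∈ s, prA (c i) β := by
  classical
  induction s using Finset.induction_on with
  | empty => simp [prA_zero_left]
  | insert a s ha ih =>
    rw [Finset.sum_insert ha, Finset.sum_insert ha]
    exact (prA_add_left_le _ _ _).trans (by linarith)

/-- additivity for nonnegative functions -/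
theorem prA_add_left_of_nonneg {c c' : Fn} (β : Fn) (h : ∀ n, 0 ≤ c n) (h' : ∀ n, 0 ≤ c' n) :
    prA (c + c') β = prA c β + prA c' β := by
  have h1 : (c + c').support ⊆ c.support ∪ c'.support := Finsupp.support_add
  rw [prA_eq_sum h1, prA_eq_sum (s := c.support ∪ c'.support) Finset.subset_union_left,
    prA_eq_sum (s := c.support ∪ c'.support) Finset.subset_union_right, ← Finset.sum_add_distrib]
  refine Finset.sum_congr rfl fun n _ => ?_
  rw [Finsupp.add_apply, abs_of_nonneg (add_nonneg (h n) (h' n)), abs_of_nonneg (h n),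
    abs_of_nonneg (h' n)]
  ring

theorem prA_sum_left_of_nonneg {ι : Type*} (s : Finset ι) (c : ι → Fn) (β : Fn)
    (h : ∀ i ∈ s, ∀ n, 0 ≤ c i n) :
    prA (∑ i ∈ s, c i) β = ∑ i ∈ s, prA (c i) β := by
  classical
  induction s using Finset.induction_on with
  | empty => simp [prA_zero_left]
  | insert a s ha ih =>
    rw [Finset.sum_insert ha, Finset.sum_insert ha, prA_add_left_of_nonneg,
      ih fun i hi => h i (Finset.mem_insert_of_mem hi)]
    · exact h a (Finset.mem_insert_self _ _)
    · intro n
      rw [Finsupp.finsetSum_apply]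
      exact Finset.sum_nonneg fun i hi => h i (Finset.mem_insert_of_mem hi) n

theorem prA_res (c β : Fn) (E : Set ℕ) : prA (res E c) β = prA c (res E β) := by
  classical
  have hs : (res E c).support ⊆ c.support := fun n hn => (res_support E c hn).1
  rw [prA_eq_sum hs]
  unfold prA
  refine Finset.sum_congr rfl fun n _ => ?_
  rw [res_apply, res_apply]
  split <;> simp

theorem tm_zero : TM 0 := by
  have := TM.node 0 (fun _ => 0) (fun j => j.elim0) (fun j => j.elim0) (fun j => j.elim0)
  simpa using this

theorem tm_bounds {t : Fn} (ht : TM t) (n : ℕ) : 0 ≤ t n ∧ t n ≤ 1 := by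
  induction ht with
  | leaf i =>
    rw [Finsupp.single_apply]
    split <;> norm_num
  | node d t ht hd hdisj ih =>
    have hval : ((1 / 2 : ℝ) • ∑ j, t j) n = (1 / 2 : ℝ) * ∑ j, t j n := by
      rw [Finsupp.smul_apply, Finsupp.finsetSum_apply, smul_eq_mul]
    rw [hval]
    have h0 : 0 ≤ ∑ j, t j n := Finset.sum_nonneg fun j _ => (ih j).1
    have h1 : ∑ j, t j n ≤ 1 := by
      by_cases h : ∃ j, t j n ≠ 0
      · obtain ⟨j, hj⟩ := h
        rw [Finset.sum_eq_single j]
        · exact (ih j).2
        · intro i _ hij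
          by_contra hne
          have h1 : n ∈ (t i).support := Finsupp.mem_support_iff.mpr hne
          have h2 : n ∈ (t j).support := Finsupp.mem_support_iff.mpr hj
          exact (Finset.disjoint_left.mp (hdisj i j hij) h1) h2
        · intro h
          exact absurd (Finset.mem_univ j) h
      · push Not at h
        rw [Finset.sum_eq_zero fun j _ => h j]
        norm_num
    constructor
    · positivity
    · linarith

theorem tm_res {t : Fn} (ht : TM t) (E : Set ℕ) : TM (res E t) := by
  classical
  induction ht with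
  | leaf i =>
    rw [res_single]
    split
    · exact TM.leaf i
    · exact tm_zero
  | node d t ht hd hdisj ih =>
    rw [res_smul, res_sum]
    exact TM.node d (fun j => res E (t j)) ih
      (fun j n hn => hd j n (res_support E _ hn).1)
      (fun i j hij => Finset.disjoint_left.mpr fun n h1 h2 =>
        Finset.disjoint_left.mp (hdisj i j hij) (res_support E _ h1).1 (res_support E _ h2).1)

theorem prA_tm_le_sum {t β : Fn} (ht : TM t) : prA t β ≤ ∑ n ∈ β.support, |β n| := by
  rw [prA_comm]
  unfold prA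
  refine Finset.sum_le_sum fun n _ => ?_
  have h := tm_bounds ht n
  have : |t n| ≤ 1 := by rw [abs_of_nonneg h.1]; exact h.2
  nlinarith [abs_nonneg (β n)]

theorem prA_le_tau {t : Fn} (ht : TM t) (β : Fn) : prA t β ≤ tau β := by
  refine le_csSup ⟨∑ n ∈ β.support, |β n|, ?_⟩ ⟨t, ht, rfl⟩
  rintro _ ⟨t, ht, rfl⟩
  exact prA_tm_le_sum ht

theorem tau_le {β : Fn} {a : ℝ} (h : ∀ t, TM t → prA t β ≤ a) : tau β ≤ a := by
  apply csSup_le
  · exact ⟨_, _, tm_zero, rfl⟩
  rintro _ ⟨t, ht, rfl⟩
  exact h t ht

theorem tau_nonneg (β : Fn) : 0 ≤ tau β := by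
  have := prA_le_tau tm_zero β
  rwa [prA_zero_left] at this

theorem tau_zero : tau 0 = 0 :=
  le_antisymm (tau_le fun t _ => by rw [prA_zero_right]) (tau_nonneg 0)

theorem tau_add (β γ : Fn) : tau (β + γ) ≤ tau β + tau γ :=
  tau_le fun t ht => (prA_add_right_le t β γ).trans
    (add_le_add (prA_le_tau ht β) (prA_le_tau ht γ))

theorem tau_smul_le (a : ℝ) (β : Fn) : tau (a • β) ≤ |a| * tau β :=
  tau_le fun t ht => by
    rw [prA_smul_right]
    exact mul_le_mul_of_nonneg_left (prA_le_tau ht β) (abs_nonneg a)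

theorem tau_smul (a : ℝ) (β : Fn) : tau (a • β) = |a| * tau β := by
  apply le_antisymm (tau_smul_le a β)
  by_cases ha : a = 0
  · subst ha
    simp [tau_nonneg]
  have h := tau_smul_le a⁻¹ (a • β)
  rw [smul_smul, inv_mul_cancel₀ ha, one_smul, abs_inv] at h
  have hpos : 0 < |a| := abs_pos.mpr ha
  calc |a| * tau β ≤ |a| * (|a|⁻¹ * tau (a • β)) := mul_le_mul_of_nonneg_left h hpos.le
    _ = tau (a • β) := by field_simp

theorem tau_sum_le {ι : Type*} (s : Finset ι) (β : ι → Fn) :
    tau (∑ i ∈ s, β i) ≤ ∑ i ∈ s, tau (β i) := by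
  classical
  induction s using Finset.induction_on with
  | empty => simp [tau_zero]
  | insert a s ha ih =>
    rw [Finset.sum_insert ha, Finset.sum_insert ha]
    exact (tau_add _ _).trans (by linarith)

theorem tau_mono {β γ : Fn} (h : ∀ n, |β n| ≤ |γ n|) : tau β ≤ tau γ :=
  tau_le fun _ ht => (prA_mono_right h).trans (prA_le_tau ht γ)

theorem tau_res_le (E : Set ℕ) (β : Fn) : tau (res E β) ≤ tau β := by
  classical
  apply tau_mono
  intro n
  rw [res_apply]
  split
  · exact le_rfl
  · rw [abs_zero]; exact abs_nonneg _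

theorem tau_single (n : ℕ) (a : ℝ) : tau (Finsupp.single n a) = |a| := by
  apply le_antisymm
  · apply tau_le
    intro t ht
    rw [prA_single_right]
    have h := tm_bounds ht n
    have : |t n| ≤ 1 := by rw [abs_of_nonneg h.1]; exact h.2
    nlinarith [abs_nonneg a]
  · have h := prA_le_tau (TM.leaf n) (Finsupp.single n a)
    rw [prA_single_left] at h
    simpa using h

theorem abs_le_tau (β : Fn) (n : ℕ) : |β n| ≤ tau β := by
  have h := prA_le_tau (TM.leaf n) β
  rw [prA_single_left, abs_one, one_mul] at h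
  exact h

theorem tau_le_sum (β : Fn) : tau β ≤ ∑ n ∈ β.support, |β n| := tau_le fun _ ht => prA_tm_le_sum ht

/-- the pairing of a nonnegative element with a sum of disjoint functions -/
theorem prA_sum_right_disj {ι : Type*} (s : Finset ι) (c : Fn) (β : ι → Fn)
    (hdisj : ∀ i ∈ s, ∀ j ∈ s, i ≠ j → Disjoint (β i).support (β j).support) :
    prA c (∑ i ∈ s, β i) = ∑ i ∈ s, prA c (β i) := by
  classical
  unfold prA
  rw [Finset.sum_comm]
  refine Finset.sum_congr rfl fun n _ => ?_
  rw [← Finset.mul_sum, Finsupp.finsetSum_apply]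
  congr 1
  by_cases h : ∃ i ∈ s, β i n ≠ 0
  · obtain ⟨i, hi, hne⟩ := h
    have hz : ∀ j ∈ s, j ≠ i → β j n = 0 := by
      intro j hj hji
      by_contra h2
      exact Finset.disjoint_left.mp (hdisj j hj i hi hji) (Finsupp.mem_support_iff.mpr h2)
        (Finsupp.mem_support_iff.mpr hne)
    rw [Finset.sum_eq_single i (fun j hj hji => hz j hj hji) (fun h' => absurd hi h'),
      Finset.sum_eq_single i (fun j hj hji => by rw [hz j hj hji, abs_zero])
        (fun h' => absurd hi h')]
  · push Not at h
    rw [Finset.sum_eq_zero h, Finset.sum_eq_zero fun i hi => by rw [h i hi, abs_zero], abs_zero]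

/-- near-optimal elements of the norming set, supported in the support of `β` -/
theorem exists_tm_near (β : Fn) {ε : ℝ} (hε : 0 < ε) :
    ∃ t, TM t ∧ t.support ⊆ β.support ∧ tau β - ε ≤ prA t β := by
  classical
  by_contra hcon
  push Not at hcon
  have : tau β ≤ tau β - ε := by
    apply tau_le
    intro t ht
    have h1 := tm_res ht (β.support : Set ℕ)
    have h2 : (res (β.support : Set ℕ) t).support ⊆ β.support := fun n hn =>
      Finset.mem_coe.mp (res_support _ t hn).2
    have h3 := hcon _ h1 h2
    have h4 : prA (res (β.support : Set ℕ) t) β = prA t β := by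
      rw [prA_res]
      congr 1
      ext n
      rw [res_apply]
      split
      · rfl
      · next h => exact (Finsupp.notMem_support_iff.mp fun h' => h (Finset.mem_coe.mpr h')).symm
    rw [h4] at h3
    exact h3.le
  linarith

/-- the defining property of the modified Tsirelson norm -/
theorem tau_half (d : ℕ) (β : Fin d → Fn) (hd : ∀ j, ∀ n ∈ (β j).support, d ≤ n)
    (hdisj : ∀ i j, i ≠ j → Disjoint (β i).support (β j).support) :
    (1 / 2 : ℝ) * ∑ j, tau (β j) ≤ tau (∑ j, β j) := by
  classical
  apply le_of_forall_pos_le_add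
  intro ε hε
  rcases Nat.eq_zero_or_pos d with h0 | hpos
  · subst h0
    simp [tau_zero, hε.le]
  have hd0 : (0 : ℝ) < d := by exact_mod_cast hpos
  have hch : ∀ j, ∃ t, TM t ∧ t.support ⊆ (β j).support ∧ tau (β j) - ε / d ≤ prA t (β j) :=
    fun j => exists_tm_near (β j) (div_pos hε hd0)
  choose t ht hts htn using hch
  have hT : TM ((1 / 2 : ℝ) • ∑ j, t j) :=
    TM.node d t ht (fun j n hn => hd j n (hts j hn))
      (fun i j hij => Finset.disjoint_of_subset_left (hts i)
        (Finset.disjoint_of_subset_right (hts j) (hdisj i j hij)))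
  have h1 := prA_le_tau hT (∑ j, β j)
  have h2 : prA ((1 / 2 : ℝ) • ∑ j, t j) (∑ j, β j) = (1 / 2) * ∑ j, prA (t j) (∑ j, β j) := by
    rw [prA_smul_left, prA_sum_left_of_nonneg]
    · norm_num
    · intro j _ n
      exact (tm_bounds (ht j) n).1
  have h3 : ∀ j, prA (t j) (β j) ≤ prA (t j) (∑ j, β j) := by
    intro j
    rw [prA_sum_right_disj Finset.univ (t j) β (fun i _ k _ hik => hdisj i k hik)]
    exact Finset.single_le_sum (f := fun i => prA (t j) (β i)) (fun i _ => prA_nonneg _ _)
      (Finset.mem_univ j)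
  have h4 : ∑ j, tau (β j) - ε ≤ ∑ j, prA (t j) (∑ j, β j) := by
    calc ∑ j, tau (β j) - ε = ∑ j : Fin d, (tau (β j) - ε / d) := by
          rw [Finset.sum_sub_distrib]
          simp
          field_simp
      _ ≤ ∑ j, prA (t j) (∑ j, β j) := Finset.sum_le_sum fun j _ => (htn j).trans (h3 j)
  rw [h2] at h1
  linarith

end Pool.Agent.Helper23.AC
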